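import Pool.Agent.TRI72.Rank

/-!
# Approximations along one path
-/

namespace Pool.Agent.TRI72

open Finset

/-- the vertices of a window -/
abbrev Vx (b : ℕ) : Type := Fin 3 × Fin b

/-- the pairs of vertices of different parts of a window -/
abbrev PairT (b : ℕ) : Type := {e : Vx b × Vx b // e.1.1 < e.2.1}

/-- the edges of a triangle -/
def InTri {b : ℕ} (a : Fin 3 → Fin b) (e : PairT b) : Prop :=
  a e.1.1.1 = e.1.1.2 ∧ a e.1.2.1 = e.1.2.2

/-- the edges between vertices of different colours -/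
def InCol {b : ℕ} (c : Vx b → Bool) (e : PairT b) : Prop := c e.1.1 ≠ c e.1.2

open Classical in
/-- the graph `K` and the edges in `Y` -/
noncomputable def inp {E : Type} {b : ℕ} (K : E → Bool) (ed : PairT b → E) (Y : PairT b → Prop)
    (e : E) : Bool := K e || decide (∃ pr, Y pr ∧ ed pr = e)

open Classical in
lemma mono_colours_aux {b : ℕ} (S : Finset (PairT b)) : ∀ j : ℕ,
    (∃ U : Finset (Vx b), U.card ≤ 2 * j ∧ ∀ e ∈ S, e.1.1 ∈ U ∧ e.1.2 ∈ U) ∨
    ∃ (F : Finset (Vx b → Bool)) (U : Finset (Vx b)), U.card ≤ 2 * j ∧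
      (∀ u ∉ U, ∀ c ∈ F, Function.update c u (!(c u)) ∈ F) ∧
      (∀ c, (∀ e ∈ S, c e.1.1 = c e.1.2) → c ∈ F) ∧
      F.card * 2 ^ j ≤ Fintype.card (Vx b → Bool) := by
  intro j
  induction j with
  | zero => exact Or.inr ⟨univ, ∅, by simp, by simp, by simp, by simp [Finset.card_univ]⟩
  | succ j ih =>
    rcases ih with ⟨U, hU, h⟩ | ⟨F, U, hU, hcl, hall, hcard⟩
    · exact Or.inl ⟨U, by omega, h⟩
    by_cases hex : ∀ e ∈ S, e.1.1 ∈ U ∧ e.1.2 ∈ U
    · exact Or.inl ⟨U, by omega, hex⟩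
    right
    obtain ⟨u, u', hne, hu', hmono⟩ : ∃ u u' : Vx b, u ≠ u' ∧ u' ∉ U ∧
        ∀ c : Vx b → Bool, (∀ e ∈ S, c e.1.1 = c e.1.2) → c u' = c u := by
      push Not at hex
      obtain ⟨e, he, hne⟩ := hex
      have hne' : e.1.1 ≠ e.1.2 := by
        intro h
        have := e.2
        rw [h] at this
        exact lt_irrefl _ this
      by_cases h1 : e.1.1 ∈ U
      · exact ⟨e.1.1, e.1.2, hne', hne h1, fun c hc => (hc e he).symm⟩
      · exact ⟨e.1.2, e.1.1, hne'.symm, h1, fun c hc => hc e he⟩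
    refine ⟨F.filter fun c => c u' = c u, insert u (insert u' U), ?_, ?_, ?_, ?_⟩
    · have h1 := Finset.card_insert_le u (insert u' U)
      have h2 := Finset.card_insert_le u' U
      omega
    · intro w hw c hc
      rw [Finset.mem_insert, Finset.mem_insert, not_or, not_or] at hw
      rw [Finset.mem_filter] at hc ⊢
      refine ⟨hcl w hw.2.2 c hc.1, ?_⟩
      rw [Function.update_of_ne (Ne.symm hw.2.1), Function.update_of_ne (Ne.symm hw.1)]
      exact hc.2
    · intro c hc
      rw [Finset.mem_filter]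
      exact ⟨hall c hc, hmono c hc⟩
    · have h1 : (F.filter fun c => c u' = c u).card ≤ (F.filter fun c => ¬ c u' = c u).card := by
        apply Finset.card_le_card_of_injOn (fun c => Function.update c u' (!(c u')))
        · intro c hc
          rw [mem_coe, mem_filter] at hc
          rw [mem_coe, mem_filter]
          refine ⟨hcl u' hu' c hc.1, ?_⟩
          show ¬ (Function.update c u' (!(c u')) u' = Function.update c u' (!(c u')) u)
          rw [Function.update_self, Function.update_of_ne hne, ← hc.2]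
          cases c u' <;> simp
        · intro c _ c' _ h
          funext w
          have := congrFun h w
          by_cases hw : w = u'
          · subst hw
            simpa using this
          · simpa [Function.update_of_ne hw] using this
      have h2 := Finset.card_filter_add_card_filter_not (s := F) (fun c => c u' = c u)
      calc (F.filter fun c => c u' = c u).card * 2 ^ (j + 1)
          = ((F.filter fun c => c u' = c u).card * 2) * 2 ^ j := by ring
        _ ≤ F.card * 2 ^ j := Nat.mul_le_mul_right _ (by omega)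
        _ ≤ _ := hcard

open Classical in
/-- few colourings are constant on all edges of a large set -/
lemma mono_colours {b p : ℕ} (S : Finset (PairT b)) (hS : 4 * p ^ 2 < S.card) :
    (univ.filter fun c : Vx b → Bool => ∀ e ∈ S, ¬ InCol c e).card * 2 ^ p ≤
      Fintype.card (Vx b → Bool) := by
  rcases mono_colours_aux S p with ⟨U, hU, h⟩ | ⟨F, U, _, _, hall, hcard⟩
  · exfalso
    have h1 : S.card ≤ (U ×ˢ U).card := by
      apply Finset.card_le_card_of_injOn (fun e => e.1)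
      · intro e he
        rw [mem_coe, mem_product]
        exact h e he
      · intro e _ e' _ h
        exact Subtype.ext h
    rw [card_product] at h1
    have h2 : U.card * U.card ≤ (2 * p) * (2 * p) := Nat.mul_le_mul hU hU
    have h3 : (2 * p) * (2 * p) = 4 * p ^ 2 := by ring
    omega
  · refine le_trans (Nat.mul_le_mul_right _ (Finset.card_le_card ?_)) hcard
    intro c hc
    rw [mem_filter] at hc
    apply hall
    intro e he
    have := hc.2 e he
    unfold InCol at this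
    rwa [not_not] at this

open Classical in
lemma exists_threshold {α : Type} [Fintype α] (w : α → ℝ) (M : ℕ) : ∀ (n : ℕ) (t₀ : ℝ),
    (univ.filter fun e => t₀ < w e).card ≤ n →
    ∃ t, t₀ ≤ t ∧ (t = t₀ ∨ M < (univ.filter fun e => t ≤ w e).card) ∧
      (univ.filter fun e => t < w e).card ≤ M := by
  intro n
  induction n with
  | zero =>
    intro t₀ h
    exact ⟨t₀, le_refl _, Or.inl rfl, h.trans (Nat.zero_le _)⟩
  | succ n ih =>
    intro t₀ h
    by_cases hM : (univ.filter fun e => t₀ < w e).card ≤ M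
    · exact ⟨t₀, le_refl _, Or.inl rfl, hM⟩
    have hne : (univ.filter fun e => t₀ < w e).Nonempty := by
      rw [← Finset.card_pos]
      omega
    obtain ⟨e₀, he₀, hmin⟩ := Finset.exists_min_image _ w hne
    rw [mem_filter] at he₀
    have h1 : (univ.filter fun e => w e₀ < w e) ⊂ univ.filter fun e => t₀ < w e := by
      rw [Finset.ssubset_iff_of_subset]
      · exact ⟨e₀, by simpa using he₀.2, by simp⟩
      · intro e he
        rw [mem_filter] at he ⊢
        exact ⟨he.1, he₀.2.trans he.2⟩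
    have h2 := Finset.card_lt_card h1
    obtain ⟨t, ht1, ht2, ht3⟩ := ih (w e₀) (by omega)
    refine ⟨t, he₀.2.le.trans ht1, Or.inr ?_, ht3⟩
    rcases ht2 with rfl | ht2
    · have h3 : (univ.filter fun e => t₀ < w e) ⊆ univ.filter fun e => w e₀ ≤ w e := by
        intro e he
        rw [mem_filter]
        exact ⟨mem_univ _, hmin e he⟩
      have h4 := Finset.card_le_card h3
      omega
    · exact ht2

section

variable {E : Type} {b : ℕ} (K : E → Bool) (ed : PairT b → E)

open Classical in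
/-- the approximator `A` of the function `g` is right apart from the exceptions `BP`, `BN` -/
def Ok (M : ℕ) (BP : Finset (Fin 3 → Fin b)) (BN : Finset (Vx b → Bool))
    (g : (E → Bool) → ℝ) (A : ℝ × (PairT b → ℝ)) : Prop :=
  (∀ e, A.1 ≤ A.2 e) ∧ (univ.filter fun e => A.1 < A.2 e).card ≤ M ∧
    (∀ a ∉ BP, ∃ e, InTri a e ∧ g (inp K ed (InTri a)) ≤ A.2 e) ∧
    ∀ c ∉ BN, A.1 ≤ g (inp K ed (InCol c)) ∧ ∀ e, InCol c e → A.2 e ≤ g (inp K ed (InCol c))

variable {K ed}

lemma Ok.mono {M : ℕ} {BP BP' : Finset (Fin 3 → Fin b)} {BN BN' : Finset (Vx b → Bool)}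
    {g : (E → Bool) → ℝ} {A : ℝ × (PairT b → ℝ)} (h : Ok K ed M BP BN g A) (h1 : BP ⊆ BP')
    (h2 : BN ⊆ BN') : Ok K ed M BP' BN' g A :=
  ⟨h.1, h.2.1, fun a ha => h.2.2.1 a fun h' => ha (h1 h'), fun c hc => h.2.2.2 c fun h' => hc (h2 h')⟩

lemma exists_inTri (a : Fin 3 → Fin b) : ∃ e, InTri a e :=
  ⟨⟨((0, a 0), (1, a 1)), by show (0 : Fin 3) < 1; decide⟩, rfl, rfl⟩

lemma ok_const (M : ℕ) (BP : Finset (Fin 3 → Fin b)) (BN : Finset (Vx b → Bool))
    {g : (E → Bool) → ℝ} {r : ℝ} (hP : ∀ a : Fin 3 → Fin b, g (inp K ed (InTri a)) = r)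
    (hN : ∀ c : Vx b → Bool, g (inp K ed (InCol c)) = r) :
    Ok K ed M BP BN g (r, fun _ => r) := by
  refine ⟨fun e => le_refl _, by simp, fun a _ => ?_, fun c _ => ?_⟩
  · obtain ⟨e, he⟩ := exists_inTri a
    exact ⟨e, he, (hP a).le⟩
  · rw [hN c]
    exact ⟨le_refl _, fun _ _ => le_refl _⟩

open Classical in
lemma ok_arg {M : ℕ} (hM : 1 ≤ M) (hK : ∀ pr, K (ed pr) = false) (hinj : Function.Injective ed)
    {BP : Finset (Fin 3 → Fin b)} {BN : Finset (Vx b → Bool)} {R : (E → Bool) → ℕ → ℝ}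
    (hR : ∀ k, ∃ A, Ok K ed M BP BN (fun x => R x k) A) (a : Arg E) :
    ∃ A, Ok K ed M BP BN (fun x => a.val x (R x)) A := by
  cases a with
  | reg k => exact hR k
  | const c => exact ⟨_, ok_const M BP BN (r := c) (fun _ => rfl) fun _ => rfl⟩
  | bit e =>
    by_cases h : ∃ pr, ed pr = e
    · obtain ⟨pr, rfl⟩ := h
      have hval : ∀ Y : PairT b → Prop, (Arg.bit (ed pr)).val (inp K ed Y) (R (inp K ed Y)) =
          if Y pr then 1 else 0 := by
        intro Y
        show (if inp K ed Y (ed pr) = true then (1 : ℝ) else 0) = _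
        have h1 : inp K ed Y (ed pr) = true ↔ Y pr := by
          unfold inp
          rw [hK, Bool.false_or, decide_eq_true_eq]
          constructor
          · rintro ⟨pr', h2, h3⟩
            rwa [hinj h3] at h2
          · intro h2
            exact ⟨pr, h2, rfl⟩
        simp only [h1]
      refine ⟨(0, fun e => if e = pr then 1 else 0), ?_, ?_, ?_, ?_⟩
      · intro e
        simp only
        split_ifs <;> norm_num
      · refine le_trans (Finset.card_le_card (t := {pr}) ?_) (by simpa using hM)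
        intro e he
        rw [mem_filter] at he
        rw [mem_singleton]
        by_contra hne
        have h1 : (0 : ℝ) < if e = pr then 1 else 0 := he.2
        rw [if_neg hne] at h1
        exact lt_irrefl _ h1
      · intro a _
        simp only [hval]
        by_cases h1 : InTri a pr
        · exact ⟨pr, h1, by simp [h1]⟩
        · obtain ⟨e, he⟩ := exists_inTri a
          refine ⟨e, he, ?_⟩
          rw [if_neg h1]
          split_ifs <;> norm_num
      · intro c _
        simp only [hval]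
        refine ⟨by split_ifs <;> norm_num, fun e he => ?_⟩
        by_cases h1 : e = pr
        · subst h1
          rw [if_pos rfl, if_pos he]
        · rw [if_neg h1]
          split_ifs <;> norm_num
    · have hval : ∀ Y : PairT b → Prop, (Arg.bit e).val (inp K ed Y) (R (inp K ed Y)) =
          if K e = true then 1 else 0 := by
        intro Y
        show (if inp K ed Y e = true then (1 : ℝ) else 0) = _
        have h1 : inp K ed Y e = K e := by
          unfold inp
          have h2 : ¬ ∃ pr, Y pr ∧ ed pr = e := by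
            rintro ⟨pr, _, h3⟩
            exact h ⟨pr, h3⟩
          rw [decide_eq_false h2, Bool.or_false]
        rw [h1]
      exact ⟨_, ok_const M BP BN (fun a => hval _) fun c => hval _⟩

open Classical in
/-- two different edges lie in at most one triangle -/
lemma card_two {e₁ e₂ : PairT b} (hne : e₁ ≠ e₂) :
    ((univ : Finset (Fin 3 → Fin b)).filter fun a => InTri a e₁ ∧ InTri a e₂).card ≤ 1 := by
  rw [Finset.card_le_one]
  intro a ha a' ha'
  rw [mem_filter] at ha ha'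
  obtain ⟨_, ⟨h1, h2⟩, h3, h4⟩ := ha
  obtain ⟨_, ⟨h1', h2'⟩, h3', h4'⟩ := ha'
  -- the parts of the two edges are different
  have hparts : ¬ (e₁.1.1.1 = e₂.1.1.1 ∧ e₁.1.2.1 = e₂.1.2.1) := by
    rintro ⟨g1, g2⟩
    apply hne
    apply Subtype.ext
    apply Prod.ext
    · apply Prod.ext g1
      rw [← h1, ← h3, g1]
    · apply Prod.ext g2
      rw [← h2, ← h4, g2]
  have hcov : ∀ i : Fin 3, i = e₁.1.1.1 ∨ i = e₁.1.2.1 ∨ i = e₂.1.1.1 ∨ i = e₂.1.2.1 := by
    have g1 := e₁.2
    have g2 := e₂.2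
    generalize e₁.1.1.1 = p1 at *
    generalize e₁.1.2.1 = p2 at *
    generalize e₂.1.1.1 = p3 at *
    generalize e₂.1.2.1 = p4 at *
    clear h1 h2 h3 h4 h1' h2' h3' h4' hne
    revert p1 p2 p3 p4
    decide
  funext i
  rcases hcov i with h | h | h | h
  · rw [h, h1, h1']
  · rw [h, h2, h2']
  · rw [h, h3, h3']
  · rw [h, h4, h4']

open Classical in
/-- an edge lies in few triangles -/
lemma card_one (e : PairT b) :
    ((univ : Finset (Fin 3 → Fin b)).filter fun a => InTri a e).card ≤ b := by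
  obtain ⟨i, hi⟩ : ∃ i : Fin 3, ∀ j, j = e.1.1.1 ∨ j = e.1.2.1 ∨ j = i := by
    have g1 := e.2
    generalize e.1.1.1 = p1 at *
    generalize e.1.2.1 = p2 at *
    revert p1 p2
    decide
  calc ((univ : Finset (Fin 3 → Fin b)).filter fun a => InTri a e).card
      ≤ (univ : Finset (Fin b)).card := by
        apply Finset.card_le_card_of_injOn (fun a => a i)
        · intro a _
          exact mem_univ _
        · intro a ha a' ha' h
          rw [mem_coe, mem_filter] at ha ha'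
          funext j
          rcases hi j with h1 | h1 | h1
          · rw [h1, ha.2.1, ha'.2.1]
          · rw [h1, ha.2.2, ha'.2.2]
          · rw [h1]
            exact h
    _ = b := by rw [card_univ, Fintype.card_fin]

open Classical in
lemma exists_two (S₁ S₂ : Finset (PairT b)) {M : ℕ} (h₁ : S₁.card ≤ M) (h₂ : S₂.card ≤ M) :
    ∃ LP : Finset (Fin 3 → Fin b), LP.card ≤ M * M ∧
      ∀ a, ∀ e₁ ∈ S₁, ∀ e₂ ∈ S₂, e₁ ≠ e₂ → InTri a e₁ → InTri a e₂ → a ∈ LP := by
  refine ⟨((S₁ ×ˢ S₂).filter fun q => q.1 ≠ q.2).biUnion fun q =>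
    (univ : Finset (Fin 3 → Fin b)).filter fun a => InTri a q.1 ∧ InTri a q.2, ?_, ?_⟩
  · calc _ ≤ _ := Finset.card_biUnion_le
      _ ≤ ∑ _q ∈ (S₁ ×ˢ S₂).filter fun q => q.1 ≠ q.2, 1 := by
        apply Finset.sum_le_sum
        intro q hq
        exact card_two (mem_filter.1 hq).2
      _ = ((S₁ ×ˢ S₂).filter fun q => q.1 ≠ q.2).card := by simp
      _ ≤ (S₁ ×ˢ S₂).card := Finset.card_filter_le _ _
      _ = S₁.card * S₂.card := card_product _ _
      _ ≤ M * M := Nat.mul_le_mul h₁ h₂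
  · intro a e₁ he₁ e₂ he₂ hne g1 g2
    rw [mem_biUnion]
    exact ⟨(e₁, e₂), mem_filter.2 ⟨mem_product.2 ⟨he₁, he₂⟩, hne⟩,
      mem_filter.2 ⟨mem_univ _, g1, g2⟩⟩

open Classical in
lemma exists_pluck {M p : ℕ} (hMp : ∀ S : Finset (PairT b), M < S.card →
      (univ.filter fun c : Vx b → Bool => ∀ e ∈ S, ¬ InCol c e).card * 2 ^ p ≤
        Fintype.card (Vx b → Bool)) (w : PairT b → ℝ) (t₀ : ℝ) :
    ∃ (t : ℝ) (LN : Finset (Vx b → Bool)), (univ.filter fun e => t < w e).card ≤ M ∧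
      LN.card * 2 ^ p ≤ Fintype.card (Vx b → Bool) ∧
      ∀ c ∉ LN, t = t₀ ∨ ∃ e, t ≤ w e ∧ InCol c e := by
  obtain ⟨t, ht1, ht2, ht3⟩ := exists_threshold w M (univ.filter fun e => t₀ < w e).card t₀ le_rfl
  rcases ht2 with h | h
  · exact ⟨t, ∅, ht3, by simp, fun c _ => Or.inl h⟩
  · refine ⟨t, _, ht3, hMp _ h, fun c hc => Or.inr ?_⟩
    rw [mem_filter] at hc
    push Not at hc
    obtain ⟨e, he, hce⟩ := hc (mem_univ _)
    exact ⟨e, (mem_filter.1 he).2, hce⟩

open Classical in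
/-- plucking -/
lemma ok_pluck {M p : ℕ} (hMp : ∀ S : Finset (PairT b), M < S.card →
      (univ.filter fun c : Vx b → Bool => ∀ e ∈ S, ¬ InCol c e).card * 2 ^ p ≤
        Fintype.card (Vx b → Bool)) {BP LP : Finset (Fin 3 → Fin b)} {BN : Finset (Vx b → Bool)}
    {g : (E → Bool) → ℝ} {t₀ : ℝ} {w : PairT b → ℝ} (hLP : LP.card ≤ M * M)
    (hP : ∀ a, a ∉ BP → a ∉ LP → ∃ e, InTri a e ∧ g (inp K ed (InTri a)) ≤ w e)
    (hN : ∀ c ∉ BN, t₀ ≤ g (inp K ed (InCol c)) ∧ ∀ e, InCol c e → w e ≤ g (inp K ed (InCol c))) :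
    ∃ (BP' : Finset (Fin 3 → Fin b)) (BN' : Finset (Vx b → Bool)) (A : ℝ × (PairT b → ℝ)),
      BP ⊆ BP' ∧ BN ⊆ BN' ∧ BP'.card ≤ BP.card + M * M ∧
      BN'.card * 2 ^ p ≤ BN.card * 2 ^ p + Fintype.card (Vx b → Bool) ∧
      Ok K ed M BP' BN' g A := by
  obtain ⟨t, LN, ht3, hLN, hLN'⟩ := exists_pluck hMp w t₀
  refine ⟨BP ∪ LP, BN ∪ LN, (t, fun e => max (w e) t), subset_union_left,
    subset_union_left, ?_, ?_, ?_, ?_, ?_, ?_⟩
  · exact (card_union_le _ _).trans (Nat.add_le_add_left hLP _)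
  · calc (BN ∪ LN).card * 2 ^ p ≤ (BN.card + LN.card) * 2 ^ p :=
          Nat.mul_le_mul_right _ (card_union_le _ _)
      _ = BN.card * 2 ^ p + LN.card * 2 ^ p := by ring
      _ ≤ _ := Nat.add_le_add_left hLN _
  · intro e
    exact le_max_right _ _
  · refine le_trans (Finset.card_le_card ?_) ht3
    intro e he
    rw [mem_filter] at he ⊢
    refine ⟨he.1, ?_⟩
    rcases lt_max_iff.1 he.2 with h | h
    · exact h
    · exact absurd h (lt_irrefl _)
  · intro a ha
    rw [mem_union, not_or] at ha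
    obtain ⟨e, he, hle⟩ := hP a ha.1 ha.2
    exact ⟨e, he, hle.trans (le_max_left _ _)⟩
  · intro c hc
    rw [mem_union, not_or] at hc
    obtain ⟨h1, h1'⟩ := hN c hc.1
    have ht : t ≤ g (inp K ed (InCol c)) := by
      rcases hLN' c hc.2 with h | ⟨e, he, hce⟩
      · rw [h]
        exact h1
      · exact he.trans (h1' e hce)
    exact ⟨ht, fun e he => max_le (h1' e he) ht⟩

open Classical in
/-- a function of two operands -/
lemma ok_step {M p : ℕ} (hMp : ∀ S : Finset (PairT b), M < S.card →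
      (univ.filter fun c : Vx b → Bool => ∀ e ∈ S, ¬ InCol c e).card * 2 ^ p ≤
        Fintype.card (Vx b → Bool)) {BP : Finset (Fin 3 → Fin b)} {BN : Finset (Vx b → Bool)}
    {φ : ℝ → ℝ → ℝ} (hφ : ∀ s s' t t', s ≤ s' → t ≤ t' → φ s t ≤ φ s' t')
    {g₁ g₂ : (E → Bool) → ℝ} {A₁ A₂ : ℝ × (PairT b → ℝ)}
    (h₁ : Ok K ed M BP BN g₁ A₁) (h₂ : Ok K ed M BP BN g₂ A₂) :
    ∃ (BP' : Finset (Fin 3 → Fin b)) (BN' : Finset (Vx b → Bool)) (A : ℝ × (PairT b → ℝ)),
      BP ⊆ BP' ∧ BN ⊆ BN' ∧ BP'.card ≤ BP.card + M * M ∧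
      BN'.card * 2 ^ p ≤ BN.card * 2 ^ p + Fintype.card (Vx b → Bool) ∧
      Ok K ed M BP' BN' (fun x => φ (g₁ x) (g₂ x)) A := by
  obtain ⟨hA1, hA2, hA3, hA4⟩ := h₁
  obtain ⟨hB1, hB2, hB3, hB4⟩ := h₂
  obtain ⟨LP, hLP, hLP'⟩ := exists_two _ _ hA2 hB2
  apply ok_pluck hMp hLP (t₀ := φ A₁.1 A₂.1) (w := fun e => φ (A₁.2 e) (A₂.2 e))
  · intro a haBP haLP
    obtain ⟨e₁, h1, h1'⟩ := hA3 a haBP
    obtain ⟨e₂, h2, h2'⟩ := hB3 a haBP
    by_cases hc : ∃ e, InTri a e ∧ g₁ (inp K ed (InTri a)) ≤ A₁.2 e ∧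
        g₂ (inp K ed (InTri a)) ≤ A₂.2 e
    · obtain ⟨e, he, g1, g2⟩ := hc
      exact ⟨e, he, hφ _ _ _ _ g1 g2⟩
    · exfalso
      push Not at hc
      apply haLP
      apply hLP' a e₁ _ e₂ _ _ h1 h2
      · rw [mem_filter]
        refine ⟨mem_univ _, ?_⟩
        by_contra hlt
        have g1 : g₁ (inp K ed (InTri a)) ≤ A₁.2 e₂ := h1'.trans ((not_lt.1 hlt).trans (hA1 e₂))
        exact absurd h2' (not_le.2 (hc e₂ h2 g1))
      · rw [mem_filter]
        refine ⟨mem_univ _, ?_⟩
        by_contra hlt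
        have g1 : g₂ (inp K ed (InTri a)) ≤ A₂.2 e₁ := h2'.trans ((not_lt.1 hlt).trans (hB1 e₁))
        exact absurd g1 (not_le.2 (hc e₁ h1 h1'))
      · rintro rfl
        exact absurd h2' (not_le.2 (hc e₁ h1 h1'))
  · intro c hc
    obtain ⟨h1, h1'⟩ := hA4 c hc
    obtain ⟨h2, h2'⟩ := hB4 c hc
    exact ⟨hφ _ _ _ _ h1 h2, fun e he => hφ _ _ _ _ (h1' e he) (h2' e he)⟩

lemma le_foldr_max {α : Type} (f : α → ℝ) (a : α) (l : List α) :
    ∀ t, (t = a ∨ t ∈ l) → f t ≤ l.foldr (fun t m => max (f t) m) (f a) := by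
  induction l with
  | nil =>
    rintro t (rfl | h)
    · exact le_refl _
    · simp at h
  | cons s l ih =>
    rintro t (rfl | h)
    · exact (ih t (Or.inl rfl)).trans (le_max_right _ _)
    · rcases List.mem_cons.1 h with rfl | h
      · exact le_max_left _ _
      · exact (ih t (Or.inr h)).trans (le_max_right _ _)

lemma exists_foldr_max {α : Type} (f : α → ℝ) (a : α) (l : List α) :
    ∃ t, (t = a ∨ t ∈ l) ∧ l.foldr (fun t m => max (f t) m) (f a) = f t := by
  induction l with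
  | nil => exact ⟨a, Or.inl rfl, rfl⟩
  | cons s l ih =>
    obtain ⟨t, ht, h⟩ := ih
    show ∃ t, _ ∧ max (f s) (l.foldr (fun t m => max (f t) m) (f a)) = f t
    rcases max_choice (f s) (l.foldr (fun t m => max (f t) m) (f a)) with h1 | h1
    · exact ⟨s, Or.inr (List.mem_cons_self ..), h1⟩
    · rw [h1]
      exact ⟨t, ht.imp id (List.mem_cons_of_mem s), h⟩

lemma foldr_min_le {α : Type} (f : α → ℝ) (a : α) (l : List α) :
    ∀ t, (t = a ∨ t ∈ l) → l.foldr (fun t m => min (f t) m) (f a) ≤ f t := by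
  induction l with
  | nil =>
    rintro t (rfl | h)
    · exact le_refl _
    · simp at h
  | cons s l ih =>
    rintro t (rfl | h)
    · exact (min_le_right _ _).trans (ih t (Or.inl rfl))
    · rcases List.mem_cons.1 h with rfl | h
      · exact min_le_left _ _
      · exact (min_le_right _ _).trans (ih t (Or.inr h))

lemma exists_foldr_min {α : Type} (f : α → ℝ) (a : α) (l : List α) :
    ∃ t, (t = a ∨ t ∈ l) ∧ l.foldr (fun t m => min (f t) m) (f a) = f t := by
  induction l with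
  | nil => exact ⟨a, Or.inl rfl, rfl⟩
  | cons s l ih =>
    obtain ⟨t, ht, h⟩ := ih
    show ∃ t, _ ∧ min (f s) (l.foldr (fun t m => min (f t) m) (f a)) = f t
    rcases min_choice (f s) (l.foldr (fun t m => min (f t) m) (f a)) with h1 | h1
    · exact ⟨s, Or.inr (List.mem_cons_self ..), h1⟩
    · rw [h1]
      exact ⟨t, ht.imp id (List.mem_cons_of_mem s), h⟩

open Classical in
/-- the maximum -/
lemma ok_mx {M p : ℕ} (hMp : ∀ S : Finset (PairT b), M < S.card →
      (univ.filter fun c : Vx b → Bool => ∀ e ∈ S, ¬ InCol c e).card * 2 ^ p ≤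
        Fintype.card (Vx b → Bool)) {BP : Finset (Fin 3 → Fin b)} {BN : Finset (Vx b → Bool)}
    {α : Type} {f : (E → Bool) → α → ℝ} {A : α → ℝ × (PairT b → ℝ)}
    (h : ∀ t, Ok K ed M BP BN (fun x => f x t) (A t)) (a : α) (l : List α) :
    ∃ (BP' : Finset (Fin 3 → Fin b)) (BN' : Finset (Vx b → Bool)) (A : ℝ × (PairT b → ℝ)),
      BP ⊆ BP' ∧ BN ⊆ BN' ∧ BP'.card ≤ BP.card + M * M ∧
      BN'.card * 2 ^ p ≤ BN.card * 2 ^ p + Fintype.card (Vx b → Bool) ∧
      Ok K ed M BP' BN' (fun x => l.foldr (fun t m => max (f x t) m) (f x a)) A := by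
  apply ok_pluck hMp (LP := ∅) (by simp)
    (t₀ := l.foldr (fun t m => max (A t).1 m) (A a).1)
    (w := fun e => l.foldr (fun t m => max ((A t).2 e) m) ((A a).2 e))
  · intro a' haBP _
    obtain ⟨t, ht, he⟩ := exists_foldr_max (f (inp K ed (InTri a'))) a l
    obtain ⟨e, he1, he2⟩ := (h t).2.2.1 a' haBP
    refine ⟨e, he1, ?_⟩
    rw [he]
    exact he2.trans (le_foldr_max (fun t => (A t).2 e) a l t ht)
  · intro c hc
    constructor
    · obtain ⟨t, ht, he⟩ := exists_foldr_max (fun t => (A t).1) a l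
      rw [he]
      exact ((h t).2.2.2 c hc).1.trans (le_foldr_max (f (inp K ed (InCol c))) a l t ht)
    · intro e hce
      obtain ⟨t, ht, he⟩ := exists_foldr_max (fun t => (A t).2 e) a l
      rw [he]
      exact (((h t).2.2.2 c hc).2 e hce).trans (le_foldr_max (f (inp K ed (InCol c))) a l t ht)

open Classical in
/-- the minimum -/
lemma ok_mn {M p : ℕ} (hMp : ∀ S : Finset (PairT b), M < S.card →
      (univ.filter fun c : Vx b → Bool => ∀ e ∈ S, ¬ InCol c e).card * 2 ^ p ≤
        Fintype.card (Vx b → Bool)) {BP : Finset (Fin 3 → Fin b)} {BN : Finset (Vx b → Bool)}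
    {α : Type} {f : (E → Bool) → α → ℝ} {A : α → ℝ × (PairT b → ℝ)}
    (h : ∀ t, Ok K ed M BP BN (fun x => f x t) (A t)) (a : α) (l : List α) :
    ∃ (BP' : Finset (Fin 3 → Fin b)) (BN' : Finset (Vx b → Bool)) (A : ℝ × (PairT b → ℝ)),
      BP ⊆ BP' ∧ BN ⊆ BN' ∧ BP'.card ≤ BP.card + M * M ∧
      BN'.card * 2 ^ p ≤ BN.card * 2 ^ p + Fintype.card (Vx b → Bool) ∧
      Ok K ed M BP' BN' (fun x => l.foldr (fun t m => min (f x t) m) (f x a)) A := by
  obtain ⟨j₁, hj₁, hmin⟩ := exists_foldr_min (fun t => (A t).1) a l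
  have hj₂ : ∀ e : PairT b, ∃ t, (t = a ∨ t ∈ l) ∧
      l.foldr (fun t m => min ((A t).2 e) m) ((A a).2 e) = (A t).2 e :=
    fun e => exists_foldr_min (fun t => (A t).2 e) a l
  choose j₂ hj₂ hmin₂ using hj₂
  set LP : Finset (Fin 3 → Fin b) := (univ.filter fun e => (A j₁).1 < (A j₁).2 e).biUnion fun e₁ =>
    ((univ.filter fun e => (A (j₂ e₁)).1 < (A (j₂ e₁)).2 e).filter fun e => e ≠ e₁).biUnion fun e₂ =>
      (univ : Finset (Fin 3 → Fin b)).filter fun a => InTri a e₁ ∧ InTri a e₂ with hLP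
  have hcard : LP.card ≤ M * M := by
    rw [hLP]
    refine Finset.card_biUnion_le.trans ?_
    calc _ ≤ ∑ _e₁ ∈ univ.filter fun e => (A j₁).1 < (A j₁).2 e, M := by
          apply Finset.sum_le_sum
          intro e₁ _
          refine Finset.card_biUnion_le.trans ?_
          calc _ ≤ ∑ _e₂ ∈ (univ.filter fun e => (A (j₂ e₁)).1 < (A (j₂ e₁)).2 e).filter
                fun e => e ≠ e₁, 1 := by
                apply Finset.sum_le_sum
                intro e₂ he₂
                exact card_two (mem_filter.1 he₂).2.symm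
            _ = ((univ.filter fun e => (A (j₂ e₁)).1 < (A (j₂ e₁)).2 e).filter
                fun e => e ≠ e₁).card := by simp
            _ ≤ M := (Finset.card_filter_le _ _).trans (h _).2.1
      _ = (univ.filter fun e => (A j₁).1 < (A j₁).2 e).card * M := by
          rw [Finset.sum_const, smul_eq_mul]
      _ ≤ M * M := Nat.mul_le_mul_right _ (h _).2.1
  apply ok_pluck hMp hcard
    (t₀ := l.foldr (fun t m => min (A t).1 m) (A a).1)
    (w := fun e => l.foldr (fun t m => min ((A t).2 e) m) ((A a).2 e))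
  · intro a' haBP haLP
    by_contra hno
    push Not at hno
    set vv := l.foldr (fun t m => min (f (inp K ed (InTri a')) t) m) (f (inp K ed (InTri a')) a)
      with hvv
    have hle : ∀ t, (t = a ∨ t ∈ l) → vv ≤ f (inp K ed (InTri a')) t :=
      foldr_min_le (f (inp K ed (InTri a'))) a l
    obtain ⟨e₁, g1, g2⟩ := (h j₁).2.2.1 a' haBP
    have g3 : vv ≤ (A j₁).2 e₁ := (hle j₁ hj₁).trans g2
    have g4 := hno e₁ g1
    have g5 : (A j₁).1 < (A j₁).2 e₁ := by
      by_contra hlt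
      have g6 : (A j₁).1 ≤ (A (j₂ e₁)).1 := by
        rw [← hmin]
        exact foldr_min_le (fun t => (A t).1) a l _ (hj₂ e₁)
      have g7 : (A (j₂ e₁)).1 ≤ (A (j₂ e₁)).2 e₁ := (h (j₂ e₁)).1 e₁
      rw [hmin₂ e₁] at g4
      have := not_lt.1 hlt
      linarith
    obtain ⟨e₂, k1, k2⟩ := (h (j₂ e₁)).2.2.1 a' haBP
    have k3 : vv ≤ (A (j₂ e₁)).2 e₂ := (hle _ (hj₂ e₁)).trans k2
    rw [hmin₂ e₁] at g4
    have k4 : (A (j₂ e₁)).1 ≤ (A (j₂ e₁)).2 e₁ := (h (j₂ e₁)).1 e₁
    apply haLP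
    rw [hLP, mem_biUnion]
    refine ⟨e₁, mem_filter.2 ⟨mem_univ _, g5⟩, ?_⟩
    rw [mem_biUnion]
    refine ⟨e₂, mem_filter.2 ⟨mem_filter.2 ⟨mem_univ _, by linarith⟩, ?_⟩,
      mem_filter.2 ⟨mem_univ _, g1, k1⟩⟩
    rintro rfl
    linarith
  · intro c hc
    constructor
    · obtain ⟨t, ht, he⟩ := exists_foldr_min (f (inp K ed (InCol c))) a l
      rw [he]
      exact (foldr_min_le (fun t => (A t).1) a l t ht).trans ((h t).2.2.2 c hc).1
    · intro e hce
      obtain ⟨t, ht, he⟩ := exists_foldr_min (f (inp K ed (InCol c))) a l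
      rw [he]
      exact (foldr_min_le (fun t => (A t).2 e) a l t ht).trans (((h t).2.2.2 c hc).2 e hce)

open Classical in
/-- one operation -/
lemma ok_op {M p : ℕ} (hM : 1 ≤ M) (hMp : ∀ S : Finset (PairT b), M < S.card →
      (univ.filter fun c : Vx b → Bool => ∀ e ∈ S, ¬ InCol c e).card * 2 ^ p ≤
        Fintype.card (Vx b → Bool)) (hK : ∀ pr, K (ed pr) = false)
    (hinj : Function.Injective ed) {BP : Finset (Fin 3 → Fin b)} {BN : Finset (Vx b → Bool)}
    {R : (E → Bool) → ℕ → ℝ} (hR : ∀ k, ∃ A, Ok K ed M BP BN (fun x => R x k) A) (o : Op E)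
    (ho : o.Ok) :
    ∃ (BP' : Finset (Fin 3 → Fin b)) (BN' : Finset (Vx b → Bool)) (A : ℝ × (PairT b → ℝ)),
      BP ⊆ BP' ∧ BN ⊆ BN' ∧ BP'.card ≤ BP.card + M * M ∧
      BN'.card * 2 ^ p ≤ BN.card * 2 ^ p + Fintype.card (Vx b → Bool) ∧
      Ok K ed M BP' BN' (fun x => o.val x (R x)) A := by
  have harg := fun a => ok_arg hM hK hinj hR a
  choose A hA using harg
  cases o with
  | fn φ a b => exact ok_step hMp ho (hA a) (hA b)
  | mx a l => exact ok_mx hMp (f := fun x t => t.val x (R x)) hA a l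
  | mn a l => exact ok_mn hMp (f := fun x t => t.val x (R x)) hA a l

lemma Ok.step_le {M : ℕ} {BP BP' : Finset (Fin 3 → Fin b)} {BN BN' : Finset (Vx b → Bool)}
    {R : (E → Bool) → ℕ → ℝ} (h : ∀ k, ∃ A, Ok K ed M BP BN (fun x => R x k) A) (h1 : BP ⊆ BP')
    (h2 : BN ⊆ BN') : ∀ k, ∃ A, Ok K ed M BP' BN' (fun x => R x k) A := fun k => by
  obtain ⟨A, hA⟩ := h k
  exact ⟨A, hA.mono h1 h2⟩

/-- the disjunction with a critical test -/
noncomputable def orTest (τ s t : ℝ) : ℝ := max s (if τ ≤ t then 1 else 0)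

lemma orTest_mono (τ : ℝ) : ∀ s s' t t', s ≤ s' → t ≤ t' → orTest τ s t ≤ orTest τ s' t' := by
  intro s s' t t' hs ht
  unfold orTest
  apply max_le_max hs
  by_cases h : τ ≤ t
  · rw [if_pos h, if_pos (h.trans ht)]
  · rw [if_neg h]
    split_ifs <;> norm_num

lemma one_le_orTest {τ s t : ℝ} : 1 ≤ orTest τ s t ↔ 1 ≤ s ∨ τ ≤ t := by
  unfold orTest
  rw [le_max_iff]
  by_cases h : τ ≤ t
  · simp [h]
  · simp [h]

open Classical in
/-- **One path.** -/
theorem path_bound {M p : ℕ} (hM : 1 ≤ M) (hMp : ∀ S : Finset (PairT b), M < S.card →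
      (univ.filter fun c : Vx b → Bool => ∀ e ∈ S, ¬ InCol c e).card * 2 ^ p ≤
        Fintype.card (Vx b → Bool)) (hK : ∀ pr, K (ed pr) = false)
    (hinj : Function.Injective ed) (q : Prog E) (hq : q.Mono) :
    ∀ (R : (E → Bool) → ℕ → ℝ) (acc : (E → Bool) → ℝ) (BP : Finset (Fin 3 → Fin b))
      (BN : Finset (Vx b → Bool)),
      (∀ k, ∃ A, Ok K ed M BP BN (fun x => R x k) A) → (∃ A, Ok K ed M BP BN acc A) →
      ∃ (BP' : Finset (Fin 3 → Fin b)) (BN' : Finset (Vx b → Bool)) (Crit : Finset (PairT b)),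
        BP'.card ≤ BP.card + q.time K (R K) * (M * M) ∧
        BN'.card * 2 ^ p ≤ BN.card * 2 ^ p + q.time K (R K) * Fintype.card (Vx b → Bool) ∧
        Crit.card ≤ M ∧
        ((∀ c ∉ BN', 1 ≤ acc (inp K ed (InCol c)) ∨
            q.Cross K (R K) (inp K ed (InCol c)) (R (inp K ed (InCol c)))) ∨
          ∀ a ∉ BP', (1 ≤ acc (inp K ed (InTri a)) ∨
            q.Cross K (R K) (inp K ed (InTri a)) (R (inp K ed (InTri a)))) →
            ∃ e ∈ Crit, InTri a e) := by
  induction q with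
  | answer a τ =>
    intro R acc BP BN hR hacc
    obtain ⟨A₀, hA₀⟩ := hacc
    obtain ⟨A₁, hA₁⟩ := ok_arg hM hK hinj hR a
    obtain ⟨BP₁, BN₁, A, hs1, hs2, hc1, hc2, hA1, hA2, hA3, hA4⟩ :=
      ok_step hMp (orTest_mono τ) hA₀ hA₁
    by_cases h : 1 ≤ A.1
    · refine ⟨BP₁, BN₁, ∅, ?_, ?_, by simp, Or.inl fun c hc => ?_⟩
      · show _ ≤ BP.card + 1 * (M * M)
        omega
      · show _ ≤ BN.card * 2 ^ p + 1 * _
        omega
      · exact one_le_orTest.1 (h.trans (hA4 c hc).1)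
    · refine ⟨BP₁, BN₁, univ.filter fun e => A.1 < A.2 e, ?_, ?_, hA2,
        Or.inr fun a' ha' hcr => ?_⟩
      · show _ ≤ BP.card + 1 * (M * M)
        omega
      · show _ ≤ BN.card * 2 ^ p + 1 * _
        omega
      · obtain ⟨e, he, hle⟩ := hA3 a' ha'
        refine ⟨e, ?_, he⟩
        rw [mem_filter]
        have h1 : 1 ≤ A.2 e := le_trans (one_le_orTest.2 hcr) hle
        exact ⟨mem_univ _, (not_le.1 h).trans_le h1⟩
  | step k o q ih =>
    intro R acc BP BN hR hacc
    obtain ⟨BP₁, BN₁, A, hs1, hs2, hc1, hc2, hok⟩ := ok_op hM hMp hK hinj hR o hq.1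
    obtain ⟨A₀, hA₀⟩ := hacc
    obtain ⟨BP', BN', Crit, h1, h2, h3, h4⟩ := ih hq.2
      (fun x => Function.update (R x) k (o.val x (R x))) acc BP₁ BN₁ (by
        intro j
        by_cases hj : j = k
        · subst hj
          refine ⟨A, ?_⟩
          simp only [Function.update_self]
          exact hok
        · obtain ⟨A', hA'⟩ := hR j
          refine ⟨A', ?_⟩
          simp only [Function.update_of_ne hj]
          exact hA'.mono hs1 hs2) ⟨A₀, hA₀.mono hs1 hs2⟩
    refine ⟨BP', BN', Crit, ?_, ?_, h3, h4⟩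
    · show _ ≤ BP.card + (_ + 1) * _
      refine h1.trans ?_
      rw [Nat.add_mul, one_mul]
      omega
    · show _ ≤ BN.card * 2 ^ p + (_ + 1) * _
      refine h2.trans ?_
      rw [Nat.add_mul, one_mul]
      omega
  | branch a τ q q' ih ih' =>
    intro R acc BP BN hR hacc
    by_cases hτ : a.val K (R K) < τ
    · have htime : (Prog.branch a τ q q').time K (R K) = q.time K (R K) + 1 := by
        show (if a.val K (R K) < τ then q.time K (R K) else q'.time K (R K)) + 1 = _
        rw [if_pos hτ]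
      obtain ⟨A₀, hA₀⟩ := hacc
      obtain ⟨A₁, hA₁⟩ := ok_arg hM hK hinj hR a
      obtain ⟨BP₁, BN₁, A, hs1, hs2, hc1, hc2, hok⟩ := ok_step hMp (orTest_mono τ) hA₀ hA₁
      obtain ⟨BP', BN', Crit, h1, h2, h3, h4⟩ := ih hq.1 R
        (fun x => orTest τ (acc x) (a.val x (R x))) BP₁ BN₁ (Ok.step_le hR hs1 hs2) ⟨A, hok⟩
      rw [htime]
      refine ⟨BP', BN', Crit, ?_, ?_, h3, ?_⟩
      · refine h1.trans ?_
        rw [Nat.add_mul, one_mul]
        omega
      · refine h2.trans ?_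
        rw [Nat.add_mul, one_mul]
        omega
      · rcases h4 with h4 | h4
        · refine Or.inl fun c hc => ?_
          rcases h4 c hc with g | g
          · rcases one_le_orTest.1 g with g | g
            · exact Or.inl g
            · exact Or.inr (Or.inl ⟨hτ, Or.inl g⟩)
          · exact Or.inr (Or.inl ⟨hτ, Or.inr g⟩)
        · refine Or.inr fun a' ha' hcr => h4 a' ha' ?_
          rcases hcr with g | ⟨_, g | g⟩ | ⟨g, _⟩
          · exact Or.inl (one_le_orTest.2 (Or.inl g))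
          · exact Or.inl (one_le_orTest.2 (Or.inr g))
          · exact Or.inr g
          · exact absurd hτ (not_lt.2 g)
    · have htime : (Prog.branch a τ q q').time K (R K) = q'.time K (R K) + 1 := by
        show (if a.val K (R K) < τ then q.time K (R K) else q'.time K (R K)) + 1 = _
        rw [if_neg hτ]
      rw [htime]
      obtain ⟨BP', BN', Crit, h1, h2, h3, h4⟩ := ih' hq.2 R acc BP BN hR hacc
      refine ⟨BP', BN', Crit, ?_, ?_, h3, ?_⟩
      · rw [Nat.add_mul]
        omega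
      · rw [Nat.add_mul]
        omega
      · rcases h4 with h4 | h4
        · refine Or.inl fun c hc => ?_
          rcases h4 c hc with g | g
          · exact Or.inl g
          · exact Or.inr (Or.inr ⟨not_lt.1 hτ, g⟩)
        · refine Or.inr fun a' ha' hcr => h4 a' ha' ?_
          rcases hcr with g | ⟨g, _⟩ | ⟨_, g⟩
          · exact Or.inl g
          · exact absurd g hτ
          · exact Or.inr g

end

end Pool.Agent.TRI72
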