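import Pool.Agent.TRI72.Appr

/-!
# The chain of triangle-free graphs and the average over the windows
-/

namespace Pool.Agent.TRI72

open Finset

section

variable {E : Type} {b m : ℕ} (ed : Fin m → PairT b → E)

open Classical in
/-- the union of the graphs of the first `i` colourings -/
noncomputable def Ks (χ : Fin m → Vx b → Bool) (i : ℕ) (e : E) : Bool :=
  decide (∃ j : Fin m, (j : ℕ) < i ∧ ∃ pr, InCol (χ j) pr ∧ ed j pr = e)

open Classical in
lemma Ks_iff {χ : Fin m → Vx b → Bool} {i : ℕ} {e : E} : Ks ed χ i e = true ↔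
    ∃ j : Fin m, (j : ℕ) < i ∧ ∃ pr, InCol (χ j) pr ∧ ed j pr = e := by
  unfold Ks
  rw [decide_eq_true_eq]

open Classical in
lemma inp_iff {K : E → Bool} {ed : PairT b → E} {Y : PairT b → Prop} {e : E} :
    inp K ed Y e = true ↔ K e = true ∨ ∃ pr, Y pr ∧ ed pr = e := by
  unfold inp
  rw [Bool.or_eq_true, decide_eq_true_eq]

lemma Ks_succ (χ : Fin m → Vx b → Bool) (i : Fin m) :
    Ks ed χ (i + 1) = inp (Ks ed χ i) (ed i) (InCol (χ i)) := by
  funext e
  rw [Bool.eq_iff_iff, Ks_iff, inp_iff, Ks_iff]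
  constructor
  · rintro ⟨j, hj, h⟩
    rcases Nat.lt_succ_iff_lt_or_eq.1 hj with h1 | h1
    · exact Or.inl ⟨j, h1, h⟩
    · have : j = i := Fin.ext h1
      subst this
      exact Or.inr h
  · rintro (⟨j, hj, h⟩ | h)
    · exact ⟨j, Nat.lt_succ_of_lt hj, h⟩
    · exact ⟨i, Nat.lt_succ_self _, h⟩

lemma Ks_update (χ : Fin m → Vx b → Bool) (i : Fin m) (c : Vx b → Bool) :
    Ks ed (Function.update χ i c) i = Ks ed χ i := by
  funext e
  rw [Bool.eq_iff_iff, Ks_iff, Ks_iff]
  constructor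
  · rintro ⟨j, hj, pr, h1, h2⟩
    have hne : j ≠ i := fun h => by rw [h] at hj; exact lt_irrefl _ hj
    rw [Function.update_of_ne hne] at h1
    exact ⟨j, hj, pr, h1, h2⟩
  · rintro ⟨j, hj, pr, h1, h2⟩
    have hne : j ≠ i := fun h => by rw [h] at hj; exact lt_irrefl _ hj
    refine ⟨j, hj, pr, ?_, h2⟩
    rw [Function.update_of_ne hne]
    exact h1

lemma Ks_notin (hed : ∀ i j pr pr', ed i pr = ed j pr' → i = j ∧ pr = pr')
    (χ : Fin m → Vx b → Bool) (i : Fin m) (pr : PairT b) : Ks ed χ i (ed i pr) = false := by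
  rw [← Bool.not_eq_true, Ks_iff]
  rintro ⟨j, hj, pr', _, h⟩
  have := (hed _ _ _ _ h).1
  rw [this] at hj
  exact lt_irrefl _ hj

lemma Ks_mono (χ : Fin m → Vx b → Bool) {i i' : ℕ} (h : i ≤ i') (e : E)
    (he : Ks ed χ i e = true) : Ks ed χ i' e = true := by
  rw [Ks_iff] at he ⊢
  obtain ⟨j, hj, h'⟩ := he
  exact ⟨j, lt_of_lt_of_le hj h, h'⟩

lemma inp_mono {K : E → Bool} {ed : PairT b → E} {Y : PairT b → Prop} (e : E)
    (h : K e = true) : inp K ed Y e = true := inp_iff.2 (Or.inl h)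

open Classical in
/-- the path changes only a few times -/
lemma changes (P : Prog E) (hP : P.Mono) (χ : Fin m → Vx b → Bool) (ρ : ℕ → ℝ) :
    (univ.filter fun i : Fin m =>
      P.rank (Ks ed χ i) ρ ≠ P.rank (Ks ed χ (i + 1)) ρ).card < P.paths := by
  have key : ∀ n : ℕ, ((Finset.range n).filter fun i =>
      P.rank (Ks ed χ i) ρ ≠ P.rank (Ks ed χ (i + 1)) ρ).card ≤ P.rank (Ks ed χ n) ρ := by
    intro n
    induction n with
    | zero => simp
    | succ n ih =>
      have h1 : P.rank (Ks ed χ n) ρ ≤ P.rank (Ks ed χ (n + 1)) ρ :=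
        P.rank_mono hP (Ks_mono ed χ (Nat.le_succ n)) ρ ρ fun _ => le_refl _
      rw [Finset.range_add_one, Finset.filter_insert]
      split_ifs with h
      · rw [Finset.card_insert_of_notMem (by simp)]
        have h2 : P.rank (Ks ed χ n) ρ < P.rank (Ks ed χ (n + 1)) ρ := lt_of_le_of_ne h1 h
        omega
      · exact ih.trans h1
  refine lt_of_le_of_lt ?_ (lt_of_le_of_lt (key m) (P.rank_lt _ _))
  apply Finset.card_le_card_of_injOn (fun i : Fin m => (i : ℕ))
  · intro i hi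
    rw [mem_coe, mem_filter] at hi
    rw [mem_coe, mem_filter, mem_range]
    exact ⟨i.2, hi.2⟩
  · intro i _ j _ h
    exact Fin.ext h

end

/-- resampling one coordinate does not change the average -/
lemma sum_update {ι C : Type} [Fintype ι] [DecidableEq ι] [Fintype C] (i : ι)
    (G : (ι → C) → ℝ) :
    ∑ χ : ι → C, ∑ c : C, G (Function.update χ i c) = Fintype.card C * ∑ χ : ι → C, G χ := by
  let e : (ι → C) × C → (ι → C) × C := fun q => (Function.update q.1 i q.2, q.1 i)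
  have he : Function.Involutive e := by
    rintro ⟨χ, c⟩
    show (Function.update (Function.update χ i c) i (χ i), Function.update χ i c i) = (χ, c)
    rw [Function.update_idem, Function.update_eq_self, Function.update_self]
  have h1 : ∑ q : (ι → C) × C, G (e q).1 = ∑ q : (ι → C) × C, G q.1 :=
    Fintype.sum_equiv he.toPerm _ _ fun q => rfl
  rw [Fintype.sum_prod_type, Fintype.sum_prod_type] at h1
  calc ∑ χ : ι → C, ∑ c : C, G (Function.update χ i c) = ∑ χ : ι → C, ∑ _c : C, G χ := h1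
    _ = ∑ χ : ι → C, Fintype.card C * G χ := by
      apply Finset.sum_congr rfl
      intro χ _
      rw [Finset.sum_const, Finset.card_univ, nsmul_eq_mul]
    _ = _ := by rw [Finset.mul_sum]

open Classical in
/-- **The choice of a window.** -/
theorem choose_window {E Ω : Type} [Fintype Ω] {b m N : ℕ} (hb : 0 < b)
    (ed : Fin m → PairT b → E)
    (hr : 12 * N ≤ m) (μ : Ω → ℝ) (hμ : ∀ ω, 0 ≤ μ ω) (hμ1 : ∑ ω, μ ω = 1)
    (P : Ω → Prog E) (hP : ∀ ω, (P ω).Mono) (hbr : ∀ ω, (P ω).paths ≤ N) (T : ℝ) (hT : 0 < T)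
    (hneg : ∀ (χ : Fin m → Vx b → Bool) (i : Fin m),
      ∑ ω, μ ω * (if (P ω).run (Ks ed χ (i + 1)) (fun _ => 0) = true then 1 else 0) ≤ 1 / 3)
    (hpos : ∀ (χ : Fin m → Vx b → Bool) (i : Fin m) (a : Fin 3 → Fin b),
      ∑ ω, μ ω * (if (P ω).run (inp (Ks ed χ i) (ed i) (InTri a)) (fun _ => 0) = false
        then 1 else 0) ≤ 1 / 3)
    (htime : ∀ (χ : Fin m → Vx b → Bool) (i : Fin m),
      ∑ ω, μ ω * ((P ω).time (Ks ed χ i) (fun _ => 0) : ℝ) ≤ T) :
    ∃ (i : Fin m) (χ : Fin m → Vx b → Bool) (ω : Ω),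
      6 * ((univ.filter fun c : Vx b → Bool =>
          (P ω).run (inp (Ks ed χ i) (ed i) (InCol c)) (fun _ => 0) = true).card : ℝ) *
          (b : ℝ) ^ 3 +
        6 * ((univ.filter fun a : Fin 3 → Fin b =>
          (P ω).run (inp (Ks ed χ i) (ed i) (InTri a)) (fun _ => 0) = false).card : ℝ) *
          Fintype.card (Vx b → Bool) +
        6 * ((univ.filter fun c : Vx b → Bool => (P ω).rank (Ks ed χ i) (fun _ => 0) ≠
          (P ω).rank (inp (Ks ed χ i) (ed i) (InCol c)) (fun _ => 0)).card : ℝ) *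
          (b : ℝ) ^ 3 +
        ((P ω).time (Ks ed χ i) (fun _ => 0) : ℝ) / (2 * T) * (b : ℝ) ^ 3 *
          Fintype.card (Vx b → Bool) ≤ 5 * (b : ℝ) ^ 3 * Fintype.card (Vx b → Bool) := by
  set Nc : ℝ := ((Fintype.card (Vx b → Bool) : ℕ) : ℝ) with hNc
  have hNc0 : 0 < Nc := by
    rw [hNc]
    exact_mod_cast Fintype.card_pos
  have hb0 : (0 : ℝ) < (b : ℝ) ^ 3 := by positivity
  have hNa : ((Fintype.card (Fin 3 → Fin b) : ℕ) : ℝ) = (b : ℝ) ^ 3 := by
    rw [Fintype.card_fun, Fintype.card_fin, Fintype.card_fin]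
    push_cast
    rfl
  obtain ⟨ω₀, hω₀⟩ : ∃ ω, 0 < μ ω := by
    by_contra h
    push Not at h
    have h1 : ∑ ω, μ ω ≤ 0 := Finset.sum_nonpos fun ω _ => h ω
    linarith
  have hN0 : 0 < N := lt_of_lt_of_le (P ω₀).one_le_paths (hbr ω₀)
  have hm0 : 0 < m := lt_of_lt_of_le (by positivity) hr
  have hm0' : (0 : ℝ) < m := by exact_mod_cast hm0
  -- the local quantity
  let F : Ω → (Fin m → Vx b → Bool) → Fin m → ℝ := fun ω χ i =>
    6 * (if (P ω).run (Ks ed χ (i + 1)) (fun _ => 0) = true then 1 else 0) * (b : ℝ) ^ 3 +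
    6 * (∑ a : Fin 3 → Fin b, if (P ω).run (inp (Ks ed χ i) (ed i) (InTri a)) (fun _ => 0) = false
      then 1 else 0) +
    6 * (if (P ω).rank (Ks ed χ i) (fun _ => 0) ≠ (P ω).rank (Ks ed χ (i + 1)) (fun _ => 0)
      then 1 else 0) * (b : ℝ) ^ 3 +
    ((P ω).time (Ks ed χ i) (fun _ => 0) : ℝ) / (2 * T) * (b : ℝ) ^ 3
  -- the upper bound
  have hup : ∀ χ, ∑ i, ∑ ω, μ ω * F ω χ i < 5 * (b : ℝ) ^ 3 * m := by
    intro χ
    have h1 : ∑ i : Fin m, ∑ ω, μ ω * F ω χ i =
        (b : ℝ) ^ 3 * 6 * (∑ i : Fin m, ∑ ω, μ ω *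
          (if (P ω).run (Ks ed χ (i + 1)) (fun _ => 0) = true then 1 else 0)) +
        6 * (∑ i : Fin m, ∑ a : Fin 3 → Fin b, ∑ ω, μ ω *
          (if (P ω).run (inp (Ks ed χ i) (ed i) (InTri a)) (fun _ => 0) = false then 1 else 0)) +
        (b : ℝ) ^ 3 * 6 * (∑ ω, μ ω * ∑ i : Fin m,
          (if (P ω).rank (Ks ed χ i) (fun _ => 0) ≠ (P ω).rank (Ks ed χ (i + 1)) (fun _ => 0)
            then 1 else 0)) +
        (b : ℝ) ^ 3 / (2 * T) * (∑ i : Fin m, ∑ ω, μ ω *
          ((P ω).time (Ks ed χ i) (fun _ => 0) : ℝ)) := by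
      have e3 : ∑ ω, μ ω * ∑ i : Fin m,
          (if (P ω).rank (Ks ed χ i) (fun _ => 0) ≠ (P ω).rank (Ks ed χ (i + 1)) (fun _ => 0)
            then (1 : ℝ) else 0) = ∑ i : Fin m, ∑ ω, μ ω *
          (if (P ω).rank (Ks ed χ i) (fun _ => 0) ≠ (P ω).rank (Ks ed χ (i + 1)) (fun _ => 0)
            then (1 : ℝ) else 0) := by
        rw [Finset.sum_comm]
        apply Finset.sum_congr rfl
        intro ω _
        rw [Finset.mul_sum]
      rw [e3, Finset.mul_sum, Finset.mul_sum, Finset.mul_sum, Finset.mul_sum,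
        ← Finset.sum_add_distrib, ← Finset.sum_add_distrib, ← Finset.sum_add_distrib]
      apply Finset.sum_congr rfl
      intro i _
      have e4 : ∑ a : Fin 3 → Fin b, ∑ ω, μ ω *
          (if (P ω).run (inp (Ks ed χ i) (ed i) (InTri a)) (fun _ => 0) = false then (1 : ℝ)
            else 0) = ∑ ω, μ ω * ∑ a : Fin 3 → Fin b,
          (if (P ω).run (inp (Ks ed χ i) (ed i) (InTri a)) (fun _ => 0) = false then (1 : ℝ)
            else 0) := by
        rw [Finset.sum_comm]
        apply Finset.sum_congr rfl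
        intro ω _
        rw [Finset.mul_sum]
      rw [e4, Finset.mul_sum, Finset.mul_sum, Finset.mul_sum, Finset.mul_sum,
        ← Finset.sum_add_distrib, ← Finset.sum_add_distrib, ← Finset.sum_add_distrib]
      apply Finset.sum_congr rfl
      intro ω _
      simp only [F]
      ring
    have h2 : ∑ i : Fin m, ∑ ω, μ ω *
        (if (P ω).run (Ks ed χ (i + 1)) (fun _ => 0) = true then (1 : ℝ) else 0) ≤ m * (1 / 3) := by
      calc _ ≤ ∑ _i : Fin m, (1 / 3 : ℝ) := Finset.sum_le_sum fun i _ => hneg χ i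
        _ = m * (1 / 3) := by rw [Finset.sum_const, Finset.card_univ, Fintype.card_fin, nsmul_eq_mul]
    have h3 : ∑ i : Fin m, ∑ a : Fin 3 → Fin b, ∑ ω, μ ω *
        (if (P ω).run (inp (Ks ed χ i) (ed i) (InTri a)) (fun _ => 0) = false then (1 : ℝ)
          else 0) ≤ m * ((b : ℝ) ^ 3 * (1 / 3)) := by
      calc _ ≤ ∑ _i : Fin m, ∑ _a : Fin 3 → Fin b, (1 / 3 : ℝ) :=
            Finset.sum_le_sum fun i _ => Finset.sum_le_sum fun a _ => hpos χ i a
        _ = m * ((b : ℝ) ^ 3 * (1 / 3)) := by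
          rw [Finset.sum_const, Finset.sum_const, Finset.card_univ, Finset.card_univ,
            Fintype.card_fin, nsmul_eq_mul, nsmul_eq_mul, hNa]
    have h4 : ∑ ω, μ ω * ∑ i : Fin m,
        (if (P ω).rank (Ks ed χ i) (fun _ => 0) ≠ (P ω).rank (Ks ed χ (i + 1)) (fun _ => 0)
          then (1 : ℝ) else 0) ≤ N - 1 := by
      calc _ ≤ ∑ ω, μ ω * (N - 1 : ℝ) := by
            apply Finset.sum_le_sum
            intro ω _
            apply mul_le_mul_of_nonneg_left _ (hμ ω)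
            rw [Finset.sum_boole]
            have g1 := changes ed (P ω) (hP ω) χ fun _ => 0
            have g2 := hbr ω
            have g3 : (univ.filter fun i : Fin m => (P ω).rank (Ks ed χ i) (fun _ => 0) ≠
                (P ω).rank (Ks ed χ (i + 1)) (fun _ => 0)).card + 1 ≤ N := by omega
            have g4 : (((univ.filter fun i : Fin m => (P ω).rank (Ks ed χ i) (fun _ => 0) ≠
                (P ω).rank (Ks ed χ (i + 1)) (fun _ => 0)).card : ℕ) : ℝ) + 1 ≤ N := by
              exact_mod_cast g3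
            linarith
        _ = N - 1 := by rw [← Finset.sum_mul, hμ1, one_mul]
    have h5 : ∑ i : Fin m, ∑ ω, μ ω * ((P ω).time (Ks ed χ i) (fun _ => 0) : ℝ) ≤ m * T := by
      calc _ ≤ ∑ _i : Fin m, T := Finset.sum_le_sum fun i _ => htime χ i
        _ = m * T := by rw [Finset.sum_const, Finset.card_univ, Fintype.card_fin, nsmul_eq_mul]
    have h6 : (12 * N : ℝ) ≤ m := by exact_mod_cast hr
    rw [h1]
    have h7 : (b : ℝ) ^ 3 / (2 * T) * (∑ i : Fin m, ∑ ω, μ ω *
        ((P ω).time (Ks ed χ i) (fun _ => 0) : ℝ)) ≤ (b : ℝ) ^ 3 / 2 * m := by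
      calc _ ≤ (b : ℝ) ^ 3 / (2 * T) * (m * T) := by gcongr
        _ = (b : ℝ) ^ 3 / 2 * m := by field_simp
    have h8 : (b : ℝ) ^ 3 * 6 * (∑ i : Fin m, ∑ ω, μ ω *
        (if (P ω).run (Ks ed χ (i + 1)) (fun _ => 0) = true then (1 : ℝ) else 0)) ≤
        (b : ℝ) ^ 3 * 6 * (m * (1 / 3)) := by gcongr
    have h9 : (b : ℝ) ^ 3 * 6 * (∑ ω, μ ω * ∑ i : Fin m,
        (if (P ω).rank (Ks ed χ i) (fun _ => 0) ≠ (P ω).rank (Ks ed χ (i + 1)) (fun _ => 0)
          then (1 : ℝ) else 0)) ≤ (b : ℝ) ^ 3 * 6 * (N - 1) := by gcongr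
    have h10 : (b : ℝ) ^ 3 * (12 * N) ≤ (b : ℝ) ^ 3 * m := by gcongr
    linarith
  -- the lower bound
  by_contra hno
  push Not at hno
  have hlow : ∀ i χ ω, 5 * (b : ℝ) ^ 3 * Nc < ∑ c : Vx b → Bool, F ω (Function.update χ i c) i := by
    intro i χ ω
    have h1 := hno i χ ω
    refine lt_of_lt_of_eq h1 ?_
    have e1 : ∀ c : Vx b → Bool, Ks ed (Function.update χ i c) (i + 1) =
        inp (Ks ed χ i) (ed i) (InCol c) := by
      intro c
      rw [Ks_succ, Ks_update, Function.update_self]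
    have e2 : ∑ c : Vx b → Bool, 6 *
        (if (P ω).run (inp (Ks ed χ i) (ed i) (InCol c)) (fun _ => 0) = true then (1 : ℝ) else 0) *
          (b : ℝ) ^ 3 =
        6 * ((univ.filter fun c : Vx b → Bool =>
          (P ω).run (inp (Ks ed χ i) (ed i) (InCol c)) (fun _ => 0) = true).card : ℝ) *
          (b : ℝ) ^ 3 := by
      rw [← Finset.sum_mul, ← Finset.mul_sum, Finset.sum_boole]
    have e3 : ∑ c : Vx b → Bool, 6 *
        (if (P ω).rank (Ks ed χ i) (fun _ => 0) ≠
          (P ω).rank (inp (Ks ed χ i) (ed i) (InCol c)) (fun _ => 0) then (1 : ℝ) else 0) *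
          (b : ℝ) ^ 3 =
        6 * ((univ.filter fun c : Vx b → Bool => (P ω).rank (Ks ed χ i) (fun _ => 0) ≠
          (P ω).rank (inp (Ks ed χ i) (ed i) (InCol c)) (fun _ => 0)).card : ℝ) *
          (b : ℝ) ^ 3 := by
      rw [← Finset.sum_mul, ← Finset.mul_sum, Finset.sum_boole]
    simp only [F, e1, Ks_update]
    rw [Finset.sum_add_distrib, Finset.sum_add_distrib, Finset.sum_add_distrib, e2, e3]
    rw [Finset.sum_boole, Finset.sum_const, Finset.sum_const, Finset.card_univ,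
      nsmul_eq_mul, nsmul_eq_mul]
    ring
  have hNx : (0 : ℝ) < Fintype.card (Fin m → Vx b → Bool) := by
    exact_mod_cast Fintype.card_pos
  have hsum1 : ∑ i : Fin m, ∑ χ : Fin m → Vx b → Bool, ∑ ω, μ ω * F ω χ i <
      5 * (b : ℝ) ^ 3 * m * Fintype.card (Fin m → Vx b → Bool) := by
    rw [Finset.sum_comm]
    calc ∑ χ : Fin m → Vx b → Bool, ∑ i : Fin m, ∑ ω, μ ω * F ω χ i
        < ∑ _χ : Fin m → Vx b → Bool, 5 * (b : ℝ) ^ 3 * m := by
          apply Finset.sum_lt_sum_of_nonempty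
          · exact Finset.univ_nonempty
          · intro χ _
            exact hup χ
      _ = _ := by
          rw [Finset.sum_const, Finset.card_univ, nsmul_eq_mul]
          ring
  have hsum2 : 5 * (b : ℝ) ^ 3 * m * Fintype.card (Fin m → Vx b → Bool) ≤
      ∑ i : Fin m, ∑ χ : Fin m → Vx b → Bool, ∑ ω, μ ω * F ω χ i := by
    have h1 : ∀ i : Fin m, 5 * (b : ℝ) ^ 3 * Fintype.card (Fin m → Vx b → Bool) ≤
        ∑ χ : Fin m → Vx b → Bool, ∑ ω, μ ω * F ω χ i := by
      intro i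
      have h2 : Nc * ∑ χ : Fin m → Vx b → Bool, ∑ ω, μ ω * F ω χ i =
          ∑ ω, μ ω * ∑ χ : Fin m → Vx b → Bool, ∑ c : Vx b → Bool,
            F ω (Function.update χ i c) i := by
        have h3 : ∀ ω, ∑ χ : Fin m → Vx b → Bool, ∑ c : Vx b → Bool,
            F ω (Function.update χ i c) i = Nc * ∑ χ : Fin m → Vx b → Bool, F ω χ i :=
          fun ω => sum_update i fun χ => F ω χ i
        simp only [h3]
        rw [Finset.sum_comm, Finset.mul_sum]
        apply Finset.sum_congr rfl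
        intro ω _
        rw [← Finset.mul_sum]
        ring
      have h4 : Nc * (5 * (b : ℝ) ^ 3 * Fintype.card (Fin m → Vx b → Bool)) ≤
          ∑ ω, μ ω * ∑ χ : Fin m → Vx b → Bool, ∑ c : Vx b → Bool,
            F ω (Function.update χ i c) i := by
        calc Nc * (5 * (b : ℝ) ^ 3 * Fintype.card (Fin m → Vx b → Bool))
            = ∑ ω, μ ω * ∑ _χ : Fin m → Vx b → Bool, 5 * (b : ℝ) ^ 3 * Nc := by
              rw [Finset.sum_const, Finset.card_univ, nsmul_eq_mul, ← Finset.sum_mul, hμ1]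
              ring
          _ ≤ _ := by
              apply Finset.sum_le_sum
              intro ω _
              apply mul_le_mul_of_nonneg_left _ (hμ ω)
              apply Finset.sum_le_sum
              intro χ _
              exact (hlow i χ ω).le
      rw [← h2] at h4
      exact le_of_mul_le_mul_left h4 hNc0
    calc 5 * (b : ℝ) ^ 3 * m * Fintype.card (Fin m → Vx b → Bool)
        = ∑ _i : Fin m, 5 * (b : ℝ) ^ 3 * Fintype.card (Fin m → Vx b → Bool) := by
          rw [Finset.sum_const, Finset.card_univ, Fintype.card_fin, nsmul_eq_mul]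
          ring
      _ ≤ _ := Finset.sum_le_sum fun i _ => h1 i
  linarith

end Pool.Agent.TRI72
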