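import Pool.Agent.TRI72.Win

/-!
# One program and one window
-/

namespace Pool.Agent.TRI72

open Finset

open Classical in
theorem window_bound {E : Type} {b m d : ℕ} (hb : 1 ≤ b) (hd : 1 ≤ d)
    (ed : Fin m → PairT b → E)
    (hed : ∀ i j pr pr', ed i pr = ed j pr' → i = j ∧ pr = pr')
    (i : Fin m) (χ : Fin m → Vx b → Bool) (q : Prog E) (hq : q.Mono)
    (hbad : 6 * (univ.filter fun c : Vx b → Bool =>
          q.run (inp (Ks ed χ i) (ed i) (InCol c)) (fun _ => 0) = true).card * b ^ 3 +
        6 * (univ.filter fun a : Fin 3 → Fin b =>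
          q.run (inp (Ks ed χ i) (ed i) (InTri a)) (fun _ => 0) = false).card *
          Fintype.card (Vx b → Bool) +
        6 * (univ.filter fun c : Vx b → Bool => q.rank (Ks ed χ i) (fun _ => 0) ≠
          q.rank (inp (Ks ed χ i) (ed i) (InCol c)) (fun _ => 0)).card * b ^ 3 ≤
        5 * b ^ 3 * Fintype.card (Vx b → Bool)) :
    2 ^ d ≤ 6 * q.time (Ks ed χ i) (fun _ => 0) ∨
      b ^ 3 ≤ 96 * d ^ 4 * q.time (Ks ed χ i) (fun _ => 0) + 24 * d ^ 2 * b := by
  have hM : 1 ≤ 4 * d ^ 2 := by
    have : 1 ≤ d ^ 2 := Nat.one_le_pow _ _ hd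
    omega
  have hb3 : 0 < b ^ 3 := by positivity
  have hinj : Function.Injective (ed i) := fun pr pr' h => (hed i i pr pr' h).2
  have hNc : 0 < Fintype.card (Vx b → Bool) := Fintype.card_pos
  obtain ⟨BP', BN', Crit, h1, h2, h3, h4⟩ := path_bound (K := Ks ed χ i) (ed := ed i) hM
    (fun S hS => mono_colours S hS) (Ks_notin ed hed χ i) hinj q hq (fun _ _ => 0) (fun _ => 0) ∅ ∅
    (fun _ => ⟨_, ok_const _ _ _ (r := 0) (fun _ => rfl) (fun _ => rfl)⟩)
    ⟨_, ok_const _ _ _ (r := 0) (fun _ => rfl) (fun _ => rfl)⟩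
  have hle : ∀ Y : PairT b → Prop, ∀ e, Ks ed χ i e = true → inp (Ks ed χ i) (ed i) Y e = true :=
    fun Y e h => inp_mono e h
  rw [card_empty, zero_add] at h1
  rw [card_empty, zero_mul, zero_add] at h2
  generalize q.time (Ks ed χ i) (fun _ => 0) = tm at *
  rcases h4 with h4 | h4
  · left
    have hsub : (univ : Finset (Vx b → Bool)) ⊆
        (univ.filter fun c : Vx b → Bool =>
          q.run (inp (Ks ed χ i) (ed i) (InCol c)) (fun _ => 0) = true) ∪
        (univ.filter fun c : Vx b → Bool => q.rank (Ks ed χ i) (fun _ => 0) ≠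
          q.rank (inp (Ks ed χ i) (ed i) (InCol c)) (fun _ => 0)) ∪ BN' := by
      intro c _
      rw [mem_union, mem_union, mem_filter, mem_filter]
      by_cases g1 : q.run (inp (Ks ed χ i) (ed i) (InCol c)) (fun _ => 0) = true
      · exact Or.inl (Or.inl ⟨mem_univ _, g1⟩)
      by_cases g2 : q.rank (Ks ed χ i) (fun _ => 0) =
          q.rank (inp (Ks ed χ i) (ed i) (InCol c)) (fun _ => 0)
      · right
        by_contra g3
        rw [Bool.not_eq_true] at g1
        rcases h4 c g3 with h | h
        · exact absurd h (by norm_num)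
        · exact q.not_cross_of_run _ _
            (q.same_of_rank hq (hle _) _ _ (fun _ => le_refl _) g2) g1 h
      · exact Or.inl (Or.inr ⟨mem_univ _, g2⟩)
    have hc := (card_le_card hsub).trans ((card_union_le _ _).trans
      (Nat.add_le_add_right (card_union_le _ _) _))
    rw [card_univ] at hc
    generalize (univ.filter fun c : Vx b → Bool =>
          q.run (inp (Ks ed χ i) (ed i) (InCol c)) (fun _ => 0) = true).card = N1 at *
    generalize (univ.filter fun a : Fin 3 → Fin b =>
          q.run (inp (Ks ed χ i) (ed i) (InTri a)) (fun _ => 0) = false).card = N2 at *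
    generalize (univ.filter fun c : Vx b → Bool => q.rank (Ks ed χ i) (fun _ => 0) ≠
          q.rank (inp (Ks ed χ i) (ed i) (InCol c)) (fun _ => 0)).card = N3 at *
    generalize Fintype.card (Vx b → Bool) = Nc at *
    have e1 : b ^ 3 * (6 * (N1 + N3)) ≤ b ^ 3 * (5 * Nc) := by nlinarith
    have e2 := Nat.le_of_mul_le_mul_left e1 hb3
    have e3 : Nc ≤ 6 * BN'.card := by omega
    have e4 : Nc * 2 ^ d ≤ Nc * (6 * tm) := by
      calc Nc * 2 ^ d ≤ 6 * BN'.card * 2 ^ d := Nat.mul_le_mul_right _ e3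
        _ = 6 * (BN'.card * 2 ^ d) := by ring
        _ ≤ 6 * (tm * Nc) := Nat.mul_le_mul_left _ h2
        _ = Nc * (6 * tm) := by ring
    exact Nat.le_of_mul_le_mul_left e4 hNc
  · right
    have hsub : (univ : Finset (Fin 3 → Fin b)) ⊆
        (univ.filter fun a : Fin 3 → Fin b =>
          q.run (inp (Ks ed χ i) (ed i) (InTri a)) (fun _ => 0) = false) ∪ BP' ∪
        Crit.biUnion fun e => univ.filter fun a : Fin 3 → Fin b => InTri a e := by
      intro a _
      rw [mem_union, mem_union, mem_filter, mem_biUnion]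
      by_cases g1 : q.run (inp (Ks ed χ i) (ed i) (InTri a)) (fun _ => 0) = false
      · exact Or.inl (Or.inl ⟨mem_univ _, g1⟩)
      by_cases g2 : a ∈ BP'
      · exact Or.inl (Or.inr g2)
      right
      rw [Bool.not_eq_false] at g1
      obtain ⟨e, he, he'⟩ := h4 a g2 (Or.inr (q.cross_of_run hq (hle _) _ _
        (fun _ => le_refl _) g1))
      exact ⟨e, he, by rw [mem_filter]; exact ⟨mem_univ _, he'⟩⟩
    have hcr : (Crit.biUnion fun e => univ.filter fun a : Fin 3 → Fin b => InTri a e).card ≤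
        4 * d ^ 2 * b := by
      refine (card_biUnion_le_card_mul _ _ b fun e _ => card_one e).trans ?_
      exact Nat.mul_le_mul_right _ h3
    have hc := (card_le_card hsub).trans ((card_union_le _ _).trans
      (Nat.add_le_add (card_union_le _ _) hcr))
    rw [card_univ, Fintype.card_fun, Fintype.card_fin, Fintype.card_fin] at hc
    generalize (univ.filter fun c : Vx b → Bool =>
          q.run (inp (Ks ed χ i) (ed i) (InCol c)) (fun _ => 0) = true).card = N1 at *
    generalize (univ.filter fun a : Fin 3 → Fin b =>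
          q.run (inp (Ks ed χ i) (ed i) (InTri a)) (fun _ => 0) = false).card = N2 at *
    generalize (univ.filter fun c : Vx b → Bool => q.rank (Ks ed χ i) (fun _ => 0) ≠
          q.rank (inp (Ks ed χ i) (ed i) (InCol c)) (fun _ => 0)).card = N3 at *
    generalize Fintype.card (Vx b → Bool) = Nc at *
    have e1 : Nc * (6 * N2) ≤ Nc * (5 * b ^ 3) := by nlinarith
    have e2 := Nat.le_of_mul_le_mul_left e1 hNc
    have e3 : 96 * d ^ 4 * tm = 6 * (tm * (4 * d ^ 2 * (4 * d ^ 2))) := by ring
    have e4 : 24 * d ^ 2 * b = 6 * (4 * d ^ 2 * b) := by ring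
    rw [e3, e4]
    omega

end Pool.Agent.TRI72
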