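import Mathlib

/-!
# Programs with few conditional branches

The registers hold arbitrary real numbers. An instruction puts a nondecreasing function of two
operands, or the maximum or the minimum of any number of operands, into a register; a conditional
branch compares an operand with a constant.
-/

namespace Pool.Agent.TRI72

/-- The operands: a bit of the input (as the number 0 or 1), the content of a register or a
constant. -/
inductive Arg (E : Type) where
  | bit (e : E)
  | reg (k : ℕ)
  | const (c : ℝ)

/-- The value of an operand; `ρ k` is the content of the register number `k`. -/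
noncomputable def Arg.val {E : Type} (x : E → Bool) (ρ : ℕ → ℝ) : Arg E → ℝ
  | .bit e => if x e = true then 1 else 0
  | .reg k => ρ k
  | .const c => c

/-- The operations: a function of two operands, the maximum and the minimum of a nonempty list of
operands. -/
inductive Op (E : Type) where
  | fn (φ : ℝ → ℝ → ℝ) (a b : Arg E)
  | mx (a : Arg E) (l : List (Arg E))
  | mn (a : Arg E) (l : List (Arg E))

/-- The result of an operation. -/
noncomputable def Op.val {E : Type} (x : E → Bool) (ρ : ℕ → ℝ) : Op E → ℝ
  | .fn φ a b => φ (a.val x ρ) (b.val x ρ)
  | .mx a l => l.foldr (fun t m => max (t.val x ρ) m) (a.val x ρ)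
  | .mn a l => l.foldr (fun t m => min (t.val x ρ) m) (a.val x ρ)

/-- The function is nondecreasing in both operands. -/
def Op.Ok {E : Type} : Op E → Prop
  | .fn φ _ _ => ∀ s s' t t', s ≤ s' → t ≤ t' → φ s t ≤ φ s' t'
  | .mx _ _ => True
  | .mn _ _ => True

/-- The programs: give an answer (yes if the operand `a` is at least `τ`); put the result of the
operation `o` into the register number `k` and go on with the program `p`; or go on with the program
`p` if the operand `a` is smaller than `τ` and with the program `p'` otherwise. -/
inductive Prog (E : Type) where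
  | answer (a : Arg E) (τ : ℝ)
  | step (k : ℕ) (o : Op E) (p : Prog E)
  | branch (a : Arg E) (τ : ℝ) (p p' : Prog E)

/-- All functions in the operations are nondecreasing. -/
def Prog.Mono {E : Type} : Prog E → Prop
  | .answer _ _ => True
  | .step _ o p => o.Ok ∧ p.Mono
  | .branch _ _ p p' => p.Mono ∧ p'.Mono

/-- The number of computation paths. -/
def Prog.paths {E : Type} : Prog E → ℕ
  | .answer _ _ => 1
  | .step _ _ p => p.paths
  | .branch _ _ p p' => p.paths + p'.paths

/-- The largest number of conditional branches in a computation. -/
def Prog.branches {E : Type} : Prog E → ℕ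
  | .answer _ _ => 0
  | .step _ _ p => p.branches
  | .branch _ _ p p' => max p.branches p'.branches + 1

open Classical in
/-- The answer of the program on the input `x` with the contents `ρ` of the registers. -/
noncomputable def Prog.run {E : Type} : Prog E → (E → Bool) → (ℕ → ℝ) → Bool
  | .answer a τ, x, ρ => decide (τ ≤ a.val x ρ)
  | .step k o p, x, ρ => p.run x (Function.update ρ k (o.val x ρ))
  | .branch a τ p p', x, ρ => if a.val x ρ < τ then p.run x ρ else p'.run x ρ

open Classical in
/-- The running time: the number of operations, conditional branches and answers carried out. -/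
noncomputable def Prog.time {E : Type} : Prog E → (E → Bool) → (ℕ → ℝ) → ℕ
  | .answer _ _, _, _ => 1
  | .step k o p, x, ρ => p.time x (Function.update ρ k (o.val x ρ)) + 1
  | .branch a τ p p', x, ρ => (if a.val x ρ < τ then p.time x ρ else p'.time x ρ) + 1

/-- The pairs of vertices of a graph with the vertices `Fin v`. -/
abbrev Pair (v : ℕ) : Type := {e : Fin v × Fin v // e.1 < e.2}

/-- The graph with the edges `x` has a triangle. -/
def HasTriangle {v : ℕ} (x : Pair v → Bool) : Prop :=
  ∃ (a b c : Fin v) (hab : a < b) (hbc : b < c), x ⟨(a, b), hab⟩ = true ∧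
    x ⟨(b, c), hbc⟩ = true ∧ x ⟨(a, c), hab.trans hbc⟩ = true

open Classical in
/-- A randomised program: the program `P ω` is chosen with the probability `μ ω`. It detects
triangles if on each graph the answer is right with probability at least `2 / 3`; all registers
contain `0` at the beginning. -/
def DetectsTriangles {v : ℕ} {Ω : Type} [Fintype Ω] (μ : Ω → ℝ) (P : Ω → Prog (Pair v)) : Prop :=
  (∀ ω, 0 ≤ μ ω) ∧ ∑ ω, μ ω = 1 ∧ ∀ x : Pair v → Bool,
    2 / 3 ≤ ∑ ω, if ((P ω).run x (fun _ => 0) = true ↔ HasTriangle x) then μ ω else 0

/-- On each graph the expected running time is at most `T`. -/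
def ExpectedTimeLE {v : ℕ} {Ω : Type} [Fintype Ω] (μ : Ω → ℝ) (P : Ω → Prog (Pair v)) (T : ℝ) :
    Prop :=
  ∀ x : Pair v → Bool, ∑ ω, μ ω * ((P ω).time x fun _ => 0) ≤ T

end Pool.Agent.TRI72
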