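import Pool.Agent.TRI72.Comb
import Pool.Agent.NegTri.ASY
import Pool.Agent.NegTri.LRG

/-!
# The lower bound
-/

namespace Pool.Agent.TRI72

open Finset

section

variable {v : ℕ} {Ω : Type} [Fintype Ω] {μ : Ω → ℝ} {P : Ω → Prog (Pair v)}

open Classical in
lemma DetectsTriangles.neg (h : DetectsTriangles μ P) {x : Pair v → Bool} (hx : ¬ HasTriangle x) :
    ∑ ω, μ ω * (if (P ω).run x (fun _ => 0) = true then 1 else 0) ≤ 1 / 3 := by
  obtain ⟨_, h1, h2⟩ := h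
  have h3 := h2 x
  have h4 : ∑ ω, μ ω * (if (P ω).run x (fun _ => 0) = true then 1 else 0) +
      ∑ ω, (if ((P ω).run x (fun _ => 0) = true ↔ HasTriangle x) then μ ω else 0) = ∑ ω, μ ω := by
    rw [← sum_add_distrib]
    apply sum_congr rfl
    intro ω _
    by_cases g : (P ω).run x (fun _ => 0) = true
    · rw [if_pos g, if_neg (fun h => hx (h.1 g))]
      ring
    · rw [if_neg g, if_pos ⟨fun h => absurd h g, fun h => absurd h hx⟩]
      ring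
  linarith

open Classical in
lemma DetectsTriangles.pos (h : DetectsTriangles μ P) {x : Pair v → Bool} (hx : HasTriangle x) :
    ∑ ω, μ ω * (if (P ω).run x (fun _ => 0) = false then 1 else 0) ≤ 1 / 3 := by
  obtain ⟨_, h1, h2⟩ := h
  have h3 := h2 x
  have h4 : ∑ ω, μ ω * (if (P ω).run x (fun _ => 0) = false then 1 else 0) +
      ∑ ω, (if ((P ω).run x (fun _ => 0) = true ↔ HasTriangle x) then μ ω else 0) = ∑ ω, μ ω := by
    rw [← sum_add_distrib]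
    apply sum_congr rfl
    intro ω _
    by_cases g : (P ω).run x (fun _ => 0) = false
    · rw [if_pos g, if_neg (fun h => by rw [h.2 hx] at g; exact Bool.noConfusion g)]
      ring
    · rw [if_neg g, if_pos ⟨fun _ => hx, fun _ => by rwa [Bool.not_eq_false] at g⟩]
      ring
  linarith

lemma one_le_time (p : Prog (Pair v)) (x : Pair v → Bool) : ∀ ρ, 1 ≤ p.time x ρ := by
  cases p with
  | answer a τ => exact fun _ => le_refl _
  | step k o p => exact fun _ => Nat.le_add_left _ _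
  | branch a τ p p' => exact fun _ => Nat.le_add_left _ _

lemma one_le_T (h : DetectsTriangles μ P) {T : ℝ} (hT : ExpectedTimeLE μ P T) : 1 ≤ T := by
  obtain ⟨h0, h1, _⟩ := h
  refine le_trans ?_ (hT fun _ => false)
  rw [← h1]
  apply sum_le_sum
  intro ω _
  have : (1 : ℝ) ≤ (P ω).time (fun _ => false) fun _ => 0 := by
    exact_mod_cast one_le_time (P ω) _ _
  nlinarith [h0 ω]

open Classical in
theorem detect_bound (hD : DetectsTriangles μ P) {T : ℝ} (hT : ExpectedTimeLE μ P T)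
    (hM : ∀ ω, (P ω).Mono) {N : ℕ} (hbr : ∀ ω, (P ω).paths ≤ N) {q b d : ℕ} (hb : 1 ≤ b)
    (hd : 1 ≤ d) (hv : 9 * q * b ≤ v) (hr : 12 * N ≤ q * rothNumberNat q) :
    (2 : ℝ) ^ d ≤ 60 * T ∨ (b : ℝ) ^ 3 ≤ 960 * d ^ 4 * T + 24 * d ^ 2 * b := by
  have hT1 := one_le_T hD hT
  have hT0 : 0 < T := by linarith
  obtain ⟨S⟩ := exists_slots q
  have hv' : 3 * (3 * q) * b ≤ v := by
    have : 3 * (3 * q) * b = 9 * q * b := by ring
    omega
  obtain ⟨i, χ, ω, h⟩ := choose_window (by omega : 0 < b) (edw hv' S) hr μ hD.1 hD.2.1 P hM hbr T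
    hT0 (fun χ i => hD.neg (Ks_no_triangle hv' S χ _))
    (fun χ i a => hD.pos (tri_triangle hv' S _ i a)) (fun χ i => hT _)
  have hNc : (0 : ℝ) < Fintype.card (Vx b → Bool) := by exact_mod_cast Fintype.card_pos
  have hb3 : (0 : ℝ) < (b : ℝ) ^ 3 := by
    have : (0 : ℝ) < b := by exact_mod_cast hb
    positivity
  have htime : ((P ω).time (Ks (edw hv' S) χ i) (fun _ => 0) : ℝ) ≤ 10 * T := by
    have h1 : ((P ω).time (Ks (edw hv' S) χ i) (fun _ => 0) : ℝ) / (2 * T) * (b : ℝ) ^ 3 *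
          Fintype.card (Vx b → Bool) ≤ 5 * (b : ℝ) ^ 3 * Fintype.card (Vx b → Bool) := by
      refine le_trans ?_ h
      apply le_add_of_nonneg_left
      positivity
    have h2 := le_of_mul_le_mul_right h1 hNc
    have h3 := le_of_mul_le_mul_right h2 hb3
    rw [div_le_iff₀ (by positivity)] at h3
    linarith
  have hnn : 0 ≤ ((P ω).time (Ks (edw hv' S) χ i) (fun _ => 0) : ℝ) / (2 * T) * (b : ℝ) ^ 3 *
          Fintype.card (Vx b → Bool) := by positivity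
  have hbad := (le_add_of_nonneg_right hnn).trans h
  have hwin := window_bound hb hd (edw hv' S) (edw_inj hv' S) i χ (P ω) (hM ω)
    (by exact_mod_cast hbad)
  generalize (P ω).time (Ks (edw hv' S) χ i) (fun _ => 0) = tm at *
  rcases hwin with h1 | h1
  · left
    have h2 : ((2 : ℝ) ^ d) ≤ 6 * tm := by exact_mod_cast h1
    linarith
  · right
    have h2 : ((b : ℝ) ^ 3) ≤ 96 * d ^ 4 * tm + 24 * d ^ 2 * b := by exact_mod_cast h1
    have h3 : 96 * (d : ℝ) ^ 4 * tm ≤ 96 * (d : ℝ) ^ 4 * (10 * T) := by gcongr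
    linarith

end

/-- the logarithm is small -/
lemma log_small (ε : ℝ) (hε : 0 < ε) : ∃ v₀ : ℕ, 2 ≤ v₀ ∧ ∀ v : ℕ, v₀ ≤ v →
    8 * (3 * Real.logb 2 v + 2) ≤ (v : ℝ) ^ ε := by
  obtain ⟨v₀, h2, h⟩ := NegTri.t_LRG ε 48 hε
  refine ⟨v₀, h2, fun v hv => ?_⟩
  obtain ⟨-, h1, -⟩ := h v hv
  refine le_trans ?_ h1
  have hv2 : (2 : ℝ) ≤ v := by exact_mod_cast h2.trans hv
  have hl : 0 ≤ Real.log v := Real.log_nonneg (by linarith)
  have hl2 := Real.log_two_gt_d9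
  have h3 : Real.logb 2 v ≤ 2 * Real.log v := by
    rw [Real.logb, div_le_iff₀ (by linarith)]
    nlinarith
  have h4 : 1 + Real.log v ≤ (1 + Real.log v) ^ 4 := le_self_pow₀ (by linarith) (by norm_num)
  linarith

lemma exists_pow (N : ℕ) (hN : 1 ≤ N) : ∃ r : ℕ, N ≤ 2 ^ r ∧ 2 ^ r ≤ 2 * N := by
  refine ⟨Nat.clog 2 N, Nat.le_pow_clog (by norm_num) _, ?_⟩
  rcases Nat.lt_or_ge 1 N with h | h
  · have h1 := Nat.pow_pred_clog_lt_self (by norm_num : 1 < 2) h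
    have h2 : 0 < Nat.clog 2 N := Nat.clog_pos (by norm_num) h
    obtain ⟨c, hc⟩ : ∃ c, Nat.clog 2 N = c + 1 := ⟨Nat.clog 2 N - 1, by omega⟩
    rw [hc] at h1 ⊢
    rw [Nat.pred_succ] at h1
    rw [pow_succ]
    omega
  · have : N = 1 := by omega
    subst this
    simp

/-- **The lower bound.** -/
theorem main (ε : ℝ) (hε : 0 < ε) : ∃ v₀ : ℕ, ∀ v : ℕ, v₀ ≤ v → ∀ (N : ℕ) (T : ℝ) (Ω : Type)
    [Fintype Ω] (μ : Ω → ℝ) (P : Ω → Prog (Pair v)), (∀ ω, (P ω).Mono) →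
    (∀ ω, (P ω).paths ≤ N) → DetectsTriangles μ P → ExpectedTimeLE μ P T →
    (v : ℝ) ^ (3 - ε) ≤ T * (N : ℝ) ^ (3 / 2 : ℝ) := by
  obtain ⟨v₁, h1⟩ := NegTri.t_ASY NegTri.t_LRG (ε / 2) (by positivity)
  obtain ⟨v₂, h2, h2'⟩ := log_small (ε / 2) (by positivity)
  refine ⟨max v₁ v₂, fun v hv N T Ω _ μ P hM hbr hD hT => ?_⟩
  have hT1 := one_le_T hD hT
  have hv2 : (2 : ℝ) ≤ v := by exact_mod_cast h2.trans ((le_max_right _ _).trans hv)
  have hv0 : (0 : ℝ) < v := by linarith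
  have hv1 : (1 : ℝ) ≤ v := by linarith
  have hlog := h2' v ((le_max_right _ _).trans hv)
  obtain ⟨ω₀, hω₀⟩ : ∃ ω, 0 < μ ω := by
    by_contra h
    push Not at h
    have h1 : ∑ ω, μ ω ≤ 0 := Finset.sum_nonpos fun ω _ => h ω
    rw [hD.2.1] at h1
    linarith
  have hN1 : 1 ≤ N := (P ω₀).one_le_paths.trans (hbr ω₀)
  obtain ⟨r, hr1, hr2⟩ := exists_pow N hN1
  have hN0 : (0 : ℝ) < N := by exact_mod_cast hN1
  have hr2' : ((2 : ℝ) ^ r) ≤ 2 * N := by exact_mod_cast hr2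
  have key := h1 v ((le_max_left _ _).trans hv) (r + 1) (T + r + 1) (by positivity) (by
    intro q k d hk hd hqk hq
    have hfl : r + 1 ≤ ⌊12 * (T + r + 1)⌋₊ := by
      apply Nat.le_floor
      push_cast
      have : (0 : ℝ) ≤ r := by positivity
      linarith
    rw [min_eq_left hfl] at hq
    have hq' : 12 * N ≤ q * rothNumberNat q := by
      have : 12 * 2 ^ r = 6 * 2 ^ (r + 1) := by ring
      omega
    have hf : 12 * T ≤ (⌊12 * (T + r + 1)⌋₊ : ℝ) + 1 := by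
      have h3 := Nat.lt_floor_add_one (12 * (T + r + 1))
      have : (0 : ℝ) ≤ r := by positivity
      linarith
    have hd1 : (1 : ℝ) ≤ d := by exact_mod_cast hd
    rcases detect_bound hD hT hM hbr hk hd hqk hq' with h3 | h3
    · left
      have h4 : (2 : ℝ) ^ d ≤ 48 * d ^ 2 * ((⌊12 * (T + r + 1)⌋₊ : ℝ) + 1) := by
        have h5 : (1 : ℝ) ≤ (d : ℝ) ^ 2 := one_le_pow₀ hd1
        calc (2 : ℝ) ^ d ≤ 60 * T := h3
          _ ≤ 48 * 1 * (12 * T) := by linarith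
          _ ≤ 48 * d ^ 2 * ((⌊12 * (T + r + 1)⌋₊ : ℝ) + 1) := by gcongr
      exact_mod_cast h4
    · right
      have h4 : (k : ℝ) ^ 3 ≤ 48 * d ^ 2 * k + 192 * d ^ 4 * ((⌊12 * (T + r + 1)⌋₊ : ℝ) + 1) := by
        have h5 : (0 : ℝ) ≤ (d : ℝ) ^ 4 := by positivity
        have h6 : (0 : ℝ) ≤ (d : ℝ) ^ 2 * k := by positivity
        calc (k : ℝ) ^ 3 ≤ 960 * d ^ 4 * T + 24 * d ^ 2 * k := h3
          _ ≤ 48 * d ^ 2 * k + 192 * d ^ 4 * (12 * T) := by nlinarith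
          _ ≤ _ := by gcongr
      exact_mod_cast h4)
  have hpw : (2 : ℝ) ^ (3 * (r : ℝ) / 2) = ((2 : ℝ) ^ r) ^ (3 / 2 : ℝ) := by
    rw [← Real.rpow_natCast, ← Real.rpow_mul (by norm_num)]
    congr 1
    ring
  have hN32 : (0 : ℝ) < (N : ℝ) ^ (3 / 2 : ℝ) := Real.rpow_pos_of_pos hN0 _
  rcases le_or_gt (r : ℝ) (3 * Real.logb 2 v) with hr | hr
  · have h3 : (2 : ℝ) ^ (3 * ((r + 1 : ℕ) : ℝ) / 2) ≤ 8 * (N : ℝ) ^ (3 / 2 : ℝ) := by
      have e : (2 : ℝ) ^ (3 * ((r + 1 : ℕ) : ℝ) / 2) = ((2 : ℝ) ^ (r + 1)) ^ (3 / 2 : ℝ) := by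
        rw [← Real.rpow_natCast, ← Real.rpow_mul (by norm_num)]
        congr 1
        ring
      have e2 : (4 : ℝ) ^ (3 / 2 : ℝ) = 8 := by
        have : (4 : ℝ) = 2 ^ (2 : ℝ) := by norm_num
        rw [this, ← Real.rpow_mul (by norm_num)]
        norm_num
      rw [e]
      calc ((2 : ℝ) ^ (r + 1)) ^ (3 / 2 : ℝ) ≤ (4 * N) ^ (3 / 2 : ℝ) := by
            apply Real.rpow_le_rpow (by positivity) _ (by norm_num)
            rw [pow_succ]
            linarith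
        _ = 8 * (N : ℝ) ^ (3 / 2 : ℝ) := by rw [Real.mul_rpow (by norm_num) hN0.le, e2]
    have h4 : (T + r + 1) ≤ T * (3 * Real.logb 2 v + 2) := by
      have : (0 : ℝ) ≤ r := by positivity
      nlinarith
    have h5 : (v : ℝ) ^ (3 - ε / 2) ≤ T * (N : ℝ) ^ (3 / 2 : ℝ) * (v : ℝ) ^ (ε / 2) := by
      calc (v : ℝ) ^ (3 - ε / 2) ≤ (T + r + 1) * 2 ^ (3 * ((r + 1 : ℕ) : ℝ) / 2) := key
        _ ≤ T * (3 * Real.logb 2 v + 2) * (8 * (N : ℝ) ^ (3 / 2 : ℝ)) := by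
          have hl0 : 0 ≤ Real.logb 2 (v : ℝ) := Real.logb_nonneg (by norm_num) hv1
          exact mul_le_mul h4 h3 (by positivity) (mul_nonneg (by linarith) (by linarith))
        _ = T * (N : ℝ) ^ (3 / 2 : ℝ) * (8 * (3 * Real.logb 2 v + 2)) := by ring
        _ ≤ _ := by gcongr
    have h6 : (v : ℝ) ^ (3 - ε) * (v : ℝ) ^ (ε / 2) ≤
        T * (N : ℝ) ^ (3 / 2 : ℝ) * (v : ℝ) ^ (ε / 2) := by
      rw [← Real.rpow_add hv0]
      have e : 3 - ε + ε / 2 = 3 - ε / 2 := by ring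
      rw [e]
      exact h5
    exact le_of_mul_le_mul_right h6 (Real.rpow_pos_of_pos hv0 _)
  · have h3 : (v : ℝ) ^ 2 ≤ N := by
      have e : (v : ℝ) = 2 ^ (Real.logb 2 v) := (Real.rpow_logb (by norm_num) (by norm_num) hv0).symm
      have e1 : (v : ℝ) ^ 3 ≤ 2 ^ r := by
        calc (v : ℝ) ^ 3 = 2 ^ (Real.logb 2 v * 3) := by
              rw [Real.rpow_mul (by norm_num), ← e]
              norm_cast
          _ ≤ (2 : ℝ) ^ (r : ℝ) :=
            Real.rpow_le_rpow_of_exponent_le (by norm_num) (by linarith)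
          _ = 2 ^ r := Real.rpow_natCast _ _
      nlinarith
    have h4 : (v : ℝ) ^ (3 : ℝ) ≤ (N : ℝ) ^ (3 / 2 : ℝ) := by
      calc (v : ℝ) ^ (3 : ℝ) = ((v : ℝ) ^ 2) ^ (3 / 2 : ℝ) := by
            rw [← Real.rpow_natCast, ← Real.rpow_mul hv0.le]
            norm_num
        _ ≤ _ := Real.rpow_le_rpow (by positivity) h3 (by norm_num)
    calc (v : ℝ) ^ (3 - ε) ≤ (v : ℝ) ^ (3 : ℝ) :=
          Real.rpow_le_rpow_of_exponent_le hv1 (by linarith)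
      _ ≤ 1 * (N : ℝ) ^ (3 / 2 : ℝ) := by rw [one_mul]; exact h4
      _ ≤ _ := by gcongr

/-- the lower bound in terms of the number of branches -/
theorem main_branches (ε : ℝ) (hε : 0 < ε) : ∃ v₀ : ℕ, ∀ v : ℕ, v₀ ≤ v → ∀ (r : ℕ) (T : ℝ)
    (Ω : Type) [Fintype Ω] (μ : Ω → ℝ) (P : Ω → Prog (Pair v)), (∀ ω, (P ω).Mono) →
    (∀ ω, (P ω).branches ≤ r) → DetectsTriangles μ P → ExpectedTimeLE μ P T →
    (v : ℝ) ^ (3 - ε) ≤ T * 2 ^ (3 * (r : ℝ) / 2) := by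
  obtain ⟨v₀, h⟩ := main ε hε
  refine ⟨v₀, fun v hv r T Ω _ μ P hM hbr hD hT => ?_⟩
  have h1 := h v hv (2 ^ r) T Ω μ P hM
    (fun ω => (P ω).paths_le.trans (Nat.pow_le_pow_right (by norm_num) (hbr ω))) hD hT
  refine h1.trans (le_of_eq ?_)
  congr 1
  push_cast
  rw [← Real.rpow_natCast, ← Real.rpow_mul (by norm_num)]
  congr 1
  ring

/-- few branches give no almost linear algorithm -/
theorem main_gamma (γ : ℝ) (hγ : 0 < γ) : ∃ v₀ : ℕ, ∀ v : ℕ, v₀ ≤ v → ∀ (r : ℕ) (T : ℝ)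
    (Ω : Type) [Fintype Ω] (μ : Ω → ℝ) (P : Ω → Prog (Pair v)), (∀ ω, (P ω).Mono) →
    (∀ ω, (P ω).branches ≤ r) → DetectsTriangles μ P → ExpectedTimeLE μ P T →
    (r : ℝ) ≤ (2 / 3 - γ) * Real.logb 2 v → (v : ℝ) ^ (2 + γ) ≤ T := by
  obtain ⟨v₀, h⟩ := main_branches (γ / 2) (by positivity)
  refine ⟨max v₀ 2, fun v hv r T Ω _ μ P hM hbr hD hT hr => ?_⟩
  have h1 := h v ((le_max_left _ _).trans hv) r T Ω μ P hM hbr hD hT
  have hv2 : (2 : ℝ) ≤ v := by exact_mod_cast (le_max_right _ _).trans hv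
  have hv0 : (0 : ℝ) < v := by linarith
  have hT1 := one_le_T hD hT
  have e : (v : ℝ) = 2 ^ (Real.logb 2 v) := (Real.rpow_logb (by norm_num) (by norm_num) hv0).symm
  have h2 : (2 : ℝ) ^ (3 * (r : ℝ) / 2) ≤ (v : ℝ) ^ (1 - 3 * γ / 2) := by
    calc (2 : ℝ) ^ (3 * (r : ℝ) / 2) ≤ 2 ^ (Real.logb 2 v * (1 - 3 * γ / 2)) := by
          apply Real.rpow_le_rpow_of_exponent_le (by norm_num)
          nlinarith
      _ = (v : ℝ) ^ (1 - 3 * γ / 2) := by rw [Real.rpow_mul (by norm_num), ← e]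
  have h3 : (v : ℝ) ^ (2 + γ) * (v : ℝ) ^ (1 - 3 * γ / 2) ≤ T * (v : ℝ) ^ (1 - 3 * γ / 2) := by
    rw [← Real.rpow_add hv0]
    have e2 : 2 + γ + (1 - 3 * γ / 2) = 3 - γ / 2 := by ring
    rw [e2]
    exact h1.trans (mul_le_mul_of_nonneg_left h2 (by linarith))
  exact le_of_mul_le_mul_right h3 (Real.rpow_pos_of_pos hv0 _)

end Pool.Agent.TRI72
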