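import Pool.Agent.TRI72.Defs

/-!
# The path of a computation
-/

namespace Pool.Agent.TRI72

variable {E : Type}

lemma Arg.val_mono {x x' : E → Bool} {ρ ρ' : ℕ → ℝ} (hx : ∀ e, x e = true → x' e = true)
    (hρ : ∀ k, ρ k ≤ ρ' k) (a : Arg E) : a.val x ρ ≤ a.val x' ρ' := by
  cases a with
  | bit e =>
    show (if x e = true then (1 : ℝ) else 0) ≤ if x' e = true then 1 else 0
    by_cases h : x e = true
    · rw [if_pos h, if_pos (hx e h)]
    · rw [if_neg h]
      split_ifs <;> norm_num
  | reg k => exact hρ k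
  | const c => exact le_refl _

lemma foldr_max_mono {α : Type} {f g : α → ℝ} (h : ∀ t, f t ≤ g t) (a : α) (l : List α) :
    l.foldr (fun t m => max (f t) m) (f a) ≤ l.foldr (fun t m => max (g t) m) (g a) := by
  induction l with
  | nil => exact h a
  | cons t l ih => exact max_le_max (h t) ih

lemma foldr_min_mono {α : Type} {f g : α → ℝ} (h : ∀ t, f t ≤ g t) (a : α) (l : List α) :
    l.foldr (fun t m => min (f t) m) (f a) ≤ l.foldr (fun t m => min (g t) m) (g a) := by
  induction l with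
  | nil => exact h a
  | cons t l ih => exact min_le_min (h t) ih

lemma Op.val_mono {x x' : E → Bool} {ρ ρ' : ℕ → ℝ} (o : Op E) (ho : o.Ok)
    (hx : ∀ e, x e = true → x' e = true) (hρ : ∀ k, ρ k ≤ ρ' k) : o.val x ρ ≤ o.val x' ρ' := by
  cases o with
  | fn φ a b => exact ho _ _ _ _ (a.val_mono hx hρ) (b.val_mono hx hρ)
  | mx a l => exact foldr_max_mono (fun t => t.val_mono hx hρ) a l
  | mn a l => exact foldr_min_mono (fun t => t.val_mono hx hρ) a l

lemma update_mono {ρ ρ' : ℕ → ℝ} (hρ : ∀ k, ρ k ≤ ρ' k) {k : ℕ} {s s' : ℝ} (hs : s ≤ s') :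
    ∀ j, Function.update ρ k s j ≤ Function.update ρ' k s' j := by
  intro j
  by_cases h : j = k
  · subst h
    rw [Function.update_self, Function.update_self]
    exact hs
  · rw [Function.update_of_ne h, Function.update_of_ne h]
    exact hρ j

lemma Prog.one_le_paths (p : Prog E) : 1 ≤ p.paths := by
  induction p with
  | answer a τ => exact le_refl _
  | step k o p ih => exact ih
  | branch a τ p p' ih ih' =>
    show 1 ≤ p.paths + p'.paths
    omega

/-- few branches, few paths -/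
lemma Prog.paths_le (p : Prog E) : p.paths ≤ 2 ^ p.branches := by
  induction p with
  | answer a τ => exact le_refl _
  | step k o p ih => exact ih
  | branch a τ p p' ih ih' =>
    have h3 : 2 ^ p.branches ≤ 2 ^ max p.branches p'.branches :=
      Nat.pow_le_pow_right (by norm_num) (le_max_left _ _)
    have h4 : 2 ^ p'.branches ≤ 2 ^ max p.branches p'.branches :=
      Nat.pow_le_pow_right (by norm_num) (le_max_right _ _)
    have h5 : 2 ^ (max p.branches p'.branches + 1) = 2 ^ max p.branches p'.branches * 2 :=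
      pow_succ _ _
    show p.paths + p'.paths ≤ 2 ^ (max p.branches p'.branches + 1)
    omega

open Classical in
/-- the number of the path -/
noncomputable def Prog.rank : Prog E → (E → Bool) → (ℕ → ℝ) → ℕ
  | .answer _ _, _, _ => 0
  | .step k o p, x, ρ => p.rank x (Function.update ρ k (o.val x ρ))
  | .branch a τ p p', x, ρ =>
      if a.val x ρ < τ then p.rank x ρ else p.paths + p'.rank x ρ

lemma Prog.rank_lt (p : Prog E) (x : E → Bool) : ∀ ρ, p.rank x ρ < p.paths := by
  induction p with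
  | answer a τ => intro ρ; simp [Prog.rank, Prog.paths]
  | step k o p ih => intro ρ; exact ih _
  | branch a τ p p' ih ih' =>
    intro ρ
    have h1 := ih ρ
    have h2 := ih' ρ
    show (if a.val x ρ < τ then p.rank x ρ else p.paths + p'.rank x ρ) < p.paths + p'.paths
    split_ifs <;> omega

lemma Prog.rank_mono (p : Prog E) (hp : p.Mono) {x x' : E → Bool}
    (hx : ∀ e, x e = true → x' e = true) :
    ∀ ρ ρ' : ℕ → ℝ, (∀ k, ρ k ≤ ρ' k) → p.rank x ρ ≤ p.rank x' ρ' := by
  induction p with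
  | answer a τ => intro ρ ρ' _; exact le_refl _
  | step k o p ih =>
    intro ρ ρ' h
    exact ih hp.2 _ _ (update_mono h (o.val_mono hp.1 hx h))
  | branch a τ p p' ih ih' =>
    intro ρ ρ' h
    have h1 := ih hp.1 ρ ρ' h
    have h2 := ih' hp.2 ρ ρ' h
    have h3 := a.val_mono hx h
    have h4 := p.rank_lt x ρ
    show (if a.val x ρ < τ then p.rank x ρ else p.paths + p'.rank x ρ) ≤
      if a.val x' ρ' < τ then p.rank x' ρ' else p.paths + p'.rank x' ρ'
    by_cases g : a.val x ρ < τ
    · rw [if_pos g]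
      split_ifs
      · exact h1
      · omega
    · rw [if_neg g, if_neg (fun g' => g (lt_of_le_of_lt h3 g'))]
      omega

/-- the two computations take the same path -/
def Prog.Same : Prog E → (E → Bool) → (ℕ → ℝ) → (E → Bool) → (ℕ → ℝ) → Prop
  | .answer _ _, _, _, _, _ => True
  | .step k o p, x, ρ, x', ρ' =>
      p.Same x (Function.update ρ k (o.val x ρ))
        x' (Function.update ρ' k (o.val x' ρ'))
  | .branch a τ p p', x, ρ, x', ρ' =>
      (a.val x ρ < τ ∧ a.val x' ρ' < τ ∧ p.Same x ρ x' ρ') ∨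
        (τ ≤ a.val x ρ ∧ τ ≤ a.val x' ρ' ∧ p'.Same x ρ x' ρ')

lemma Prog.same_of_rank (p : Prog E) (hp : p.Mono) {x x' : E → Bool}
    (hx : ∀ e, x e = true → x' e = true) :
    ∀ ρ ρ' : ℕ → ℝ, (∀ k, ρ k ≤ ρ' k) → p.rank x ρ = p.rank x' ρ' → p.Same x ρ x' ρ' := by
  induction p with
  | answer a τ => intro ρ ρ' _ _; trivial
  | step k o p ih =>
    intro ρ ρ' h hr
    exact ih hp.2 _ _ (update_mono h (o.val_mono hp.1 hx h)) hr
  | branch a τ p p' ih ih' =>
    intro ρ ρ' h hr
    have h3 := a.val_mono hx h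
    have h4 := p.rank_lt x ρ
    change (if a.val x ρ < τ then p.rank x ρ else p.paths + p'.rank x ρ) =
      (if a.val x' ρ' < τ then p.rank x' ρ' else p.paths + p'.rank x' ρ') at hr
    by_cases g : a.val x ρ < τ
    · rw [if_pos g] at hr
      by_cases g' : a.val x' ρ' < τ
      · rw [if_pos g'] at hr
        exact Or.inl ⟨g, g', ih hp.1 ρ ρ' h hr⟩
      · rw [if_neg g'] at hr
        omega
    · have g' : ¬ a.val x' ρ' < τ := fun g' => g (lt_of_le_of_lt h3 g')
      rw [if_neg g, if_neg g'] at hr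
      exact Or.inr ⟨not_lt.1 g, not_lt.1 g', ih' hp.2 ρ ρ' h (by omega)⟩

/-- On the path of the input `x` some critical test is positive for the input `x'`. -/
def Prog.Cross : Prog E → (E → Bool) → (ℕ → ℝ) → (E → Bool) → (ℕ → ℝ) → Prop
  | .answer a τ, _, _, x', ρ' => τ ≤ a.val x' ρ'
  | .step k o p, x, ρ, x', ρ' =>
      p.Cross x (Function.update ρ k (o.val x ρ))
        x' (Function.update ρ' k (o.val x' ρ'))
  | .branch a τ p p', x, ρ, x', ρ' =>
      (a.val x ρ < τ ∧ (τ ≤ a.val x' ρ' ∨ p.Cross x ρ x' ρ')) ∨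
        (τ ≤ a.val x ρ ∧ p'.Cross x ρ x' ρ')

/-- accepted inputs above `x` cross -/
lemma Prog.cross_of_run (p : Prog E) (hp : p.Mono) {x x' : E → Bool}
    (hx : ∀ e, x e = true → x' e = true) :
    ∀ ρ ρ' : ℕ → ℝ, (∀ k, ρ k ≤ ρ' k) → p.run x' ρ' = true → p.Cross x ρ x' ρ' := by
  induction p with
  | answer a τ =>
    intro ρ ρ' _ h
    unfold Prog.run at h
    rw [decide_eq_true_eq] at h
    exact h
  | step k o p ih =>
    intro ρ ρ' h hr
    exact ih hp.2 _ _ (update_mono h (o.val_mono hp.1 hx h)) hr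
  | branch a τ p p' ih ih' =>
    intro ρ ρ' h hr
    have h3 := a.val_mono hx h
    unfold Prog.run at hr
    by_cases g : a.val x ρ < τ
    · by_cases g' : a.val x' ρ' < τ
      · rw [if_pos g'] at hr
        exact Or.inl ⟨g, Or.inr (ih hp.1 ρ ρ' h hr)⟩
      · exact Or.inl ⟨g, Or.inl (not_lt.1 g')⟩
    · have g' : ¬ a.val x' ρ' < τ := fun g' => g (lt_of_le_of_lt h3 g')
      rw [if_neg g'] at hr
      exact Or.inr ⟨not_lt.1 g, ih' hp.2 ρ ρ' h hr⟩

/-- rejected inputs with the same path do not cross -/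
lemma Prog.not_cross_of_run (p : Prog E) {x x' : E → Bool} :
    ∀ ρ ρ' : ℕ → ℝ, p.Same x ρ x' ρ' → p.run x' ρ' = false → ¬ p.Cross x ρ x' ρ' := by
  induction p with
  | answer a τ =>
    intro ρ ρ' _ h
    unfold Prog.run at h
    rw [decide_eq_false_iff_not] at h
    exact h
  | step k o p ih =>
    intro ρ ρ' h hr
    exact ih _ _ h hr
  | branch a τ p p' ih ih' =>
    intro ρ ρ' h hr hc
    unfold Prog.run at hr
    rcases h with ⟨h1, h2, h3⟩ | ⟨h1, h2, h3⟩
    · rw [if_pos h2] at hr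
      rcases hc with ⟨_, hc | hc⟩ | ⟨hc, _⟩
      · exact absurd h2 (not_lt.2 hc)
      · exact ih ρ ρ' h3 hr hc
      · exact absurd h1 (not_lt.2 hc)
    · rw [if_neg (not_lt.2 h2)] at hr
      rcases hc with ⟨hc, _⟩ | ⟨_, hc⟩
      · exact absurd hc (not_lt.2 h1)
      · exact ih' ρ ρ' h3 hr hc

end Pool.Agent.TRI72
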