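import Pool.Agent.TRI72.Chain

/-!
# Ruzsa-Szemeredi windows
-/

namespace Pool.Agent.TRI72

open Finset

section

variable {v A b : ℕ}

lemma vtx_lt (hv : 3 * A * b ≤ v) (i : Fin 3) (s : Fin A) (t : Fin b) :
    ((i : ℕ) * A + s) * b + t < v := by
  have h1 : (i : ℕ) + 1 ≤ 3 := i.2
  have h2 : (i : ℕ) * A + s + 1 ≤ 3 * A := by
    calc (i : ℕ) * A + s + 1 ≤ i * A + A := by have := s.2; omega
      _ = (i + 1) * A := by ring
      _ ≤ 3 * A := Nat.mul_le_mul_right _ h1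
  calc ((i : ℕ) * A + s) * b + t < (i * A + s) * b + b := by have := t.2; omega
    _ = (i * A + s + 1) * b := by ring
    _ ≤ 3 * A * b := Nat.mul_le_mul_right _ h2
    _ ≤ v := hv

/-- the vertex number `t` of the block number `s` of the part number `i` -/
def vtx (hv : 3 * A * b ≤ v) (i : Fin 3) (s : Fin A) (t : Fin b) : Fin v :=
  ⟨((i : ℕ) * A + s) * b + t, vtx_lt hv i s t⟩

variable (hv : 3 * A * b ≤ v)

include hv in
lemma vtx_inj {i i' : Fin 3} {s s' : Fin A} {t t' : Fin b} (h : vtx hv i s t = vtx hv i' s' t') :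
    i = i' ∧ s = s' ∧ t = t' := by
  have hb : 0 < b := lt_of_le_of_lt (Nat.zero_le _) t.2
  have hA : 0 < A := lt_of_le_of_lt (Nat.zero_le _) s.2
  have h1 : ((i : ℕ) * A + s) * b + t = ((i' : ℕ) * A + s') * b + t' := congrArg Fin.val h
  have h2 : (t : ℕ) = t' := by
    have e := congrArg (· % b) h1
    simp only [Nat.mul_add_mod_self_right, Nat.mod_eq_of_lt t.2, Nat.mod_eq_of_lt t'.2] at e
    exact e
  have h3 : (i : ℕ) * A + s = (i' : ℕ) * A + s' := by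
    rw [h2] at h1
    exact Nat.eq_of_mul_eq_mul_right hb (Nat.add_right_cancel h1)
  have h4 : (s : ℕ) = s' := by
    have e := congrArg (· % A) h3
    simp only [Nat.mul_add_mod_self_right, Nat.mod_eq_of_lt s.2, Nat.mod_eq_of_lt s'.2] at e
    exact e
  have h5 : (i : ℕ) = i' := by
    rw [h4] at h3
    exact Nat.eq_of_mul_eq_mul_right hA (Nat.add_right_cancel h3)
  exact ⟨Fin.ext h5, Fin.ext h4, Fin.ext h2⟩

lemma vtx_lt_vtx {i i' : Fin 3} (h : i < i') (s s' : Fin A) (t t' : Fin b) :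
    vtx hv i s t < vtx hv i' s' t' := by
  show ((i : ℕ) * A + s) * b + t < ((i' : ℕ) * A + s') * b + t'
  have h1 : (i : ℕ) + 1 ≤ i' := h
  have h2 : (i : ℕ) * A + s + 1 ≤ (i' : ℕ) * A + s' := by
    calc (i : ℕ) * A + s + 1 ≤ i * A + A := by have := s.2; omega
      _ = (i + 1) * A := by ring
      _ ≤ i' * A := Nat.mul_le_mul_right _ h1
      _ ≤ _ := Nat.le_add_right _ _
  calc ((i : ℕ) * A + s) * b + t < (i * A + s) * b + b := by have := t.2; omega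
    _ = (i * A + s + 1) * b := by ring
    _ ≤ (i' * A + s') * b := Nat.mul_le_mul_right _ h2
    _ ≤ _ := Nat.le_add_right _ _

end

/-- the properties of the blocks of the windows -/
structure Slots (A m : ℕ) where
  sl : Fin m → Fin 3 → Fin A
  two : ∀ j j' i i', i < i' → sl j i = sl j' i → sl j i' = sl j' i' → j = j'
  three : ∀ j1 j2 j3, sl j1 0 = sl j3 0 → sl j1 1 = sl j2 1 → sl j2 2 = sl j3 2 →
    j1 = j2 ∧ j1 = j3

/-- Ruzsa and Szemeredi -/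
theorem exists_slots (q : ℕ) : Nonempty (Slots (3 * q) (q * rothNumberNat q)) := by
  obtain ⟨D, hD, hcard, hfree⟩ := rothNumberNat_spec q
  have hc : (Finset.range q ×ˢ D).card = q * rothNumberNat q := by
    rw [card_product, card_range, hcard]
  let w : Fin (q * rothNumberNat q) ≃ (Finset.range q ×ˢ D : Finset (ℕ × ℕ)) :=
    (Finset.equivFinOfCardEq hc).symm
  have hw : ∀ j, (w j : ℕ × ℕ).1 < q ∧ (w j : ℕ × ℕ).2 ∈ D := by
    intro j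
    have := (w j).2
    rw [mem_product, mem_range] at this
    exact this
  have hw2 : ∀ j, (w j : ℕ × ℕ).2 < q := fun j => mem_range.1 (hD (hw j).2)
  have hwi : ∀ j j', (w j : ℕ × ℕ).1 = (w j' : ℕ × ℕ).1 → (w j : ℕ × ℕ).2 = (w j' : ℕ × ℕ).2 →
      j = j' := fun j j' h1 h2 => w.injective (Subtype.ext (Prod.ext h1 h2))
  have hlt : ∀ (j : Fin (q * rothNumberNat q)) (i : Fin 3),
      (w j : ℕ × ℕ).1 + i * (w j : ℕ × ℕ).2 < 3 * q := by
    intro j i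
    have h1 := (hw j).1
    have h2 := hw2 j
    have h3 : (i : ℕ) ≤ 2 := by have := i.2; omega
    have h4 : (i : ℕ) * (w j : ℕ × ℕ).2 ≤ 2 * (w j : ℕ × ℕ).2 := Nat.mul_le_mul_right _ h3
    omega
  refine ⟨⟨fun j i => ⟨(w j : ℕ × ℕ).1 + i * (w j : ℕ × ℕ).2, hlt j i⟩, ?_, ?_⟩⟩
  · intro j j' i i' hi h1 h2
    have h1' : (w j : ℕ × ℕ).1 + i * (w j : ℕ × ℕ).2 =
      (w j' : ℕ × ℕ).1 + i * (w j' : ℕ × ℕ).2 := congrArg Fin.val h1
    have h2' : (w j : ℕ × ℕ).1 + i' * (w j : ℕ × ℕ).2 =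
      (w j' : ℕ × ℕ).1 + i' * (w j' : ℕ × ℕ).2 := congrArg Fin.val h2
    obtain ⟨c, hc⟩ := Nat.exists_eq_add_of_lt (Fin.lt_def.1 hi)
    have h3 : (c + 1) * (w j : ℕ × ℕ).2 = (c + 1) * (w j' : ℕ × ℕ).2 := by
      rw [hc] at h2'
      have e1 : (w j : ℕ × ℕ).1 + ((i : ℕ) + c + 1) * (w j : ℕ × ℕ).2 =
        (w j : ℕ × ℕ).1 + i * (w j : ℕ × ℕ).2 + (c + 1) * (w j : ℕ × ℕ).2 := by ring
      have e2 : (w j' : ℕ × ℕ).1 + ((i : ℕ) + c + 1) * (w j' : ℕ × ℕ).2 =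
        (w j' : ℕ × ℕ).1 + i * (w j' : ℕ × ℕ).2 + (c + 1) * (w j' : ℕ × ℕ).2 := by ring
      omega
    have h4 : (w j : ℕ × ℕ).2 = (w j' : ℕ × ℕ).2 := Nat.eq_of_mul_eq_mul_left (Nat.succ_pos c) h3
    rw [h4] at h1'
    exact hwi j j' (Nat.add_right_cancel h1') h4
  · intro j1 j2 j3 h1 h2 h3
    have h1' : (w j1 : ℕ × ℕ).1 + 0 * (w j1 : ℕ × ℕ).2 =
      (w j3 : ℕ × ℕ).1 + 0 * (w j3 : ℕ × ℕ).2 := congrArg Fin.val h1
    have h2' : (w j1 : ℕ × ℕ).1 + 1 * (w j1 : ℕ × ℕ).2 =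
      (w j2 : ℕ × ℕ).1 + 1 * (w j2 : ℕ × ℕ).2 := congrArg Fin.val h2
    have h3' : (w j2 : ℕ × ℕ).1 + 2 * (w j2 : ℕ × ℕ).2 =
      (w j3 : ℕ × ℕ).1 + 2 * (w j3 : ℕ × ℕ).2 := congrArg Fin.val h3
    have h4 : (w j1 : ℕ × ℕ).2 + (w j2 : ℕ × ℕ).2 = (w j3 : ℕ × ℕ).2 + (w j3 : ℕ × ℕ).2 := by
      omega
    have h5 : (w j1 : ℕ × ℕ).2 = (w j3 : ℕ × ℕ).2 := hfree (hw j1).2 (hw j3).2 (hw j2).2 h4
    exact ⟨hwi _ _ (by omega) (by omega), hwi _ _ (by omega) h5⟩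

section

variable {v A b m : ℕ} (hv : 3 * A * b ≤ v) (S : Slots A m)

/-- the vertices of a window -/
def emb (j : Fin m) (p : Vx b) : Fin v := vtx hv p.1 (S.sl j p.1) p.2

/-- the pairs of a window -/
def edw (j : Fin m) (e : PairT b) : Pair v :=
  ⟨(emb hv S j e.1.1, emb hv S j e.1.2), vtx_lt_vtx hv e.2 _ _ _ _⟩

lemma emb_eq {j j' : Fin m} {p p' : Vx b} (h : emb hv S j p = emb hv S j' p') :
    p = p' ∧ S.sl j p.1 = S.sl j' p.1 := by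
  obtain ⟨h1, h2, h3⟩ := vtx_inj hv h
  refine ⟨Prod.ext h1 h3, ?_⟩
  rw [h2, h1]

lemma edw_inj (i j : Fin m) (pr pr' : PairT b) (h : edw hv S i pr = edw hv S j pr') :
    i = j ∧ pr = pr' := by
  have h1 : emb hv S i pr.1.1 = emb hv S j pr'.1.1 := congrArg (fun e => e.1.1) h
  have h2 : emb hv S i pr.1.2 = emb hv S j pr'.1.2 := congrArg (fun e => e.1.2) h
  obtain ⟨g1, g2⟩ := emb_eq hv S h1
  obtain ⟨g3, g4⟩ := emb_eq hv S h2
  exact ⟨S.two _ _ _ _ pr.2 g2 g4, Subtype.ext (Prod.ext g1 g3)⟩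

lemma fin_three (x y z : Fin 3) (h : x < y) (h' : y < z) : x = 0 ∧ y = 1 ∧ z = 2 := by
  revert x y z
  decide

lemma lt01 : (0 : Fin 3) < 1 := by decide

lemma lt12 : (1 : Fin 3) < 2 := by decide

lemma lt02 : (0 : Fin 3) < 2 := by decide

lemma bool_three (x y z : Bool) (h : x ≠ y) (h' : y ≠ z) (h'' : x ≠ z) : False := by
  revert x y z
  decide

/-- the unions of the bipartite graphs have no triangles -/
theorem Ks_no_triangle (χ : Fin m → Vx b → Bool) (i : ℕ) :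
    ¬ HasTriangle (Ks (edw hv S) χ i) := by
  rintro ⟨a, c, d, hac, hcd, h1, h2, h3⟩
  rw [Ks_iff] at h1 h2 h3
  obtain ⟨j1, _, p1, c1, e1⟩ := h1
  obtain ⟨j2, _, p2, c2, e2⟩ := h2
  obtain ⟨j3, _, p3, c3, e3⟩ := h3
  have a1 : emb hv S j1 p1.1.1 = a := congrArg (fun e => e.1.1) e1
  have b1 : emb hv S j1 p1.1.2 = c := congrArg (fun e => e.1.2) e1
  have a2 : emb hv S j2 p2.1.1 = c := congrArg (fun e => e.1.1) e2
  have b2 : emb hv S j2 p2.1.2 = d := congrArg (fun e => e.1.2) e2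
  have a3 : emb hv S j3 p3.1.1 = a := congrArg (fun e => e.1.1) e3
  have b3 : emb hv S j3 p3.1.2 = d := congrArg (fun e => e.1.2) e3
  obtain ⟨f1, g1⟩ := emb_eq hv S (a1.trans a3.symm)
  obtain ⟨f2, g2⟩ := emb_eq hv S (b1.trans a2.symm)
  obtain ⟨f3, g3⟩ := emb_eq hv S (b2.trans b3.symm)
  have h23 := p2.2
  rw [← f2] at h23
  obtain ⟨q0, q1, q2⟩ := fin_three _ _ _ p1.2 h23
  rw [q0] at g1
  rw [q1] at g2
  rw [q2] at g3
  obtain ⟨k1, k2⟩ := S.three j1 j2 j3 g1 g2 g3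
  subst k1
  subst k2
  unfold InCol at c1 c2 c3
  rw [← f2] at c2
  rw [← f1, ← f3] at c3
  exact bool_three _ _ _ c1 c2 c3

/-- each triangle of a window is a triangle -/
theorem tri_triangle (K : Pair v → Bool) (i : Fin m) (a : Fin 3 → Fin b) :
    HasTriangle (inp K (edw hv S i) (InTri a)) := by
  refine ⟨emb hv S i (0, a 0), emb hv S i (1, a 1), emb hv S i (2, a 2),
    vtx_lt_vtx hv lt01 _ _ _ _, vtx_lt_vtx hv lt12 _ _ _ _, ?_, ?_, ?_⟩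
  · exact inp_iff.2 (Or.inr ⟨⟨((0, a 0), (1, a 1)), lt01⟩, ⟨rfl, rfl⟩, rfl⟩)
  · exact inp_iff.2 (Or.inr ⟨⟨((1, a 1), (2, a 2)), lt12⟩, ⟨rfl, rfl⟩, rfl⟩)
  · exact inp_iff.2 (Or.inr ⟨⟨((0, a 0), (2, a 2)), lt02⟩, ⟨rfl, rfl⟩, rfl⟩)

end

end Pool.Agent.TRI72
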